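import Pool.Agent.LightEdge.Word

namespace Pool.Agent.LightEdge

open Finset

set_option linter.unusedSectionVars false

variable {V : Type} [Fintype V] [DecidableEq V] {G : SimpleGraph V} [DecidableRel G.Adj]

theorem okP_of_adj {x y : V} (h : G.Adj x y) : okP (ty G x) (ty G y) = true := by
  unfold okP
  by_cases h1 : ty G x = 1
  · have := (ty_one h1).2 y h
    rw [h1, this]; decide
  · by_cases h2 : ty G y = 1
    · have := (ty_one h2).2 x h.symm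
      rw [h2, this]; decide
    · simp [h1, h2]

namespace Rotation

/-- the exceptional configuration -/
def DD (R : Rotation G) (w : V) : Prop :=
  ∃ u0 u1 u2 u3 u4 u5 u6 a0 a1 a2 a3 a4 a5 a6 : V,
    R.Cfg w u0 u1 u2 u3 u4 u5 u6 a0 a1 a2 a3 a4 a5 a6 ∧
      ty G a0 = 2 ∧ ty G a1 = 2 ∧ ty G a2 = 0 ∧ isT (ty G a3) ∧ ty G a4 = 0 ∧ isT (ty G a5) ∧
      ty G a6 = 0

theorem DD_of {R : Rotation G} {w u0 u1 u2 u3 u4 u5 u6 a0 a1 a2 a3 a4 a5 a6 : V}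
    (h : R.Cfg w u0 u1 u2 u3 u4 u5 u6 a0 a1 a2 a3 a4 a5 a6)
    (hD : DW (ty G a0) (ty G a1) (ty G a2) (ty G a3) (ty G a4) (ty G a5) (ty G a6) = true) :
    R.DD w := by
  unfold DW at hD
  simp only [Bool.and_eq_true, beq_iff_eq] at hD
  obtain ⟨⟨⟨⟨⟨⟨h0, h1⟩, h2⟩, h3⟩, h4⟩, h5⟩, h6⟩ := hD
  exact ⟨u0, u1, u2, u3, u4, u5, u6, a0, a1, a2, a3, a4, a5, a6, h, h0, h1, h2, h3, h4, h5, h6⟩

theorem A_poor (R : Rotation G) {w : V} (hw : ty G w = 1) (hr : ¬ R.Rich w) :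
    72 ≤ R.TT w ∨ (66 ≤ R.TT w ∧ R.DD w) := by
  unfold Rich at hr
  push Not at hr
  obtain ⟨hc, hcl⟩ := hr
  rw [R.TT_clean hc]
  obtain ⟨hd, hall⟩ := ty_one hw
  have hT : isT (ty G w) := by rw [hw]; decide
  obtain ⟨x0, h⟩ := (G.degree_pos_iff_exists_adj w).1 (by omega : 0 < G.degree w)
  obtain ⟨x1, e0⟩ : ∃ y, R.next w x0 = y := ⟨_, rfl⟩
  obtain ⟨x2, e1⟩ : ∃ y, R.next w x1 = y := ⟨_, rfl⟩
  obtain ⟨x3, e2⟩ : ∃ y, R.next w x2 = y := ⟨_, rfl⟩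
  obtain ⟨x4, e3⟩ : ∃ y, R.next w x3 = y := ⟨_, rfl⟩
  obtain ⟨x5, e4⟩ : ∃ y, R.next w x4 = y := ⟨_, rfl⟩
  obtain ⟨x6, e5⟩ : ∃ y, R.next w x5 = y := ⟨_, rfl⟩
  have e6 : R.next w x6 = x0 := R.seven_close hd h e0 e1 e2 e3 e4 e5
  have T0 : R.Tr w x0 x1 := hc.tr h e0
  have T1 : R.Tr w x1 x2 := hc.tr T0.a3.symm e1
  have T2 : R.Tr w x2 x3 := hc.tr T1.a3.symm e2
  have T3 : R.Tr w x3 x4 := hc.tr T2.a3.symm e3
  have T4 : R.Tr w x4 x5 := hc.tr T3.a3.symm e4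
  have T5 : R.Tr w x5 x6 := hc.tr T4.a3.symm e5
  have T6 : R.Tr w x6 x0 := hc.tr T5.a3.symm e6
  have z0 := hall _ T0.a
  have z1 := hall _ T1.a
  have z2 := hall _ T2.a
  have z3 := hall _ T3.a
  have z4 := hall _ T4.a
  have z5 := hall _ T5.a
  have z6 := hall _ T6.a
  have k0 := hcl _ T0.a z0
  have k1 := hcl _ T1.a z1
  have k2 := hcl _ T2.a z2
  have k3 := hcl _ T3.a z3
  have k4 := hcl _ T4.a z4
  have k5 := hcl _ T5.a z5
  have k6 := hcl _ T6.a z6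
  have s0 := R.apex_step (ty_zero.1 z0) k0 T6 T0
  have s1 := R.apex_step (ty_zero.1 z1) k1 T0 T1
  have s2 := R.apex_step (ty_zero.1 z2) k2 T1 T2
  have s3 := R.apex_step (ty_zero.1 z3) k3 T2 T3
  have s4 := R.apex_step (ty_zero.1 z4) k4 T3 T4
  have s5 := R.apex_step (ty_zero.1 z5) k5 T4 T5
  have s6 := R.apex_step (ty_zero.1 z6) k6 T5 T6
  have f0 := R.FF_inner z6 z0 z1 k0 T6 T0
  have f1 := R.FF_inner z0 z1 z2 k1 T0 T1
  have f2 := R.FF_inner z1 z2 z3 k2 T1 T2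
  have f3 := R.FF_inner z2 z3 z4 k3 T2 T3
  have f4 := R.FF_inner z3 z4 z5 k4 T3 T4
  have f5 := R.FF_inner z4 z5 z6 k5 T4 T5
  have f6 := R.FF_inner z5 z6 z0 k6 T5 T6
  have hS : R.SS w = _ := R.sum_seven hd h e0 e1 e2 e3 e4 e5 (R.FF w)
  have C : R.Cfg w x0 x1 x2 x3 x4 x5 x6 (R.next x1 x0) (R.next x2 x1) (R.next x3 x2)
      (R.next x4 x3) (R.next x5 x4) (R.next x6 x5) (R.next x0 x6) :=
    ⟨T0, T1, T2, T3, T4, T5, T6, s1.1, s2.1, s3.1, s4.1, s5.1, s6.1, s0.1,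
      s1.2.1, s2.2.1, s3.2.1, s4.2.1, s5.2.1, s6.2.1, s0.2.1,
      s1.2.2.1, s2.2.2.1, s3.2.2.1, s4.2.2.1, s5.2.2.1, s6.2.2.1, s0.2.2.1⟩
  generalize R.next x1 x0 = a0 at *
  generalize R.next x2 x1 = a1 at *
  generalize R.next x3 x2 = a2 at *
  generalize R.next x4 x3 = a3 at *
  generalize R.next x5 x4 = a4 at *
  generalize R.next x6 x5 = a5 at *
  generalize R.next x0 x6 = a6 at *
  have hW := word_check (ty G a0) (ty G a1) (ty G a2) (ty G a3) (ty G a4) (ty G a5) (ty G a6)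
  unfold wordOK at hW
  rw [okP_of_adj C.c0.a2, okP_of_adj C.c1.a2, okP_of_adj C.c2.a2, okP_of_adj C.c3.a2,
    okP_of_adj C.c4.a2, okP_of_adj C.c5.a2, okP_of_adj C.c6.a2] at hW
  simp only [Bool.and_self, Bool.not_true, Bool.false_or, Bool.or_eq_true, Bool.and_eq_true,
    Nat.ble_eq] at hW
  rw [hw] at f0 f1 f2 f3 f4 f5 f6
  rcases hW with h1 | ⟨h1, h2⟩
  · left; omega
  · right
    refine ⟨by omega, ?_⟩
    rcases h2 with ((((((h2 | h2) | h2) | h2) | h2) | h2) | h2)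
    · exact DD_of C h2
    · exact DD_of C.rot h2
    · exact DD_of C.rot.rot h2
    · exact DD_of C.rot.rot.rot h2
    · exact DD_of C.rot.rot.rot.rot h2
    · exact DD_of C.rot.rot.rot.rot.rot h2
    · exact DD_of C.rot.rot.rot.rot.rot.rot h2

end Rotation

end Pool.Agent.LightEdge
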