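import Pool.Agent.LightEdge.Euler

namespace Pool.Agent.LightEdge

open Finset

set_option linter.unusedSectionVars false
set_option linter.unusedVariables false

variable {V : Type} [Fintype V] [DecidableEq V] {G : SimpleGraph V} [DecidableRel G.Adj]

theorem deg_eq (G : SimpleGraph V) [DecidableRel G.Adj] (v : V) : deg G v = G.degree v := by
  unfold deg
  rw [Set.ncard_eq_toFinset_card']
  rfl

open Classical in
/-- darts from degree `i` to degree `j` -/
noncomputable def dartsIJ (G : SimpleGraph V) [DecidableRel G.Adj] (i j : ℕ) : Finset G.Dart :=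
  univ.filter (fun d => G.degree d.fst = i ∧ G.degree d.snd = j)

open Classical in
noncomputable def edgesIJ (G : SimpleGraph V) [DecidableRel G.Adj] (i j : ℕ) : Finset (Sym2 V) :=
  univ.filter (fun s => s ∈ G.edgeSet ∧ ∃ v w, s = s(v, w) ∧ deg G v = i ∧ deg G w = j)

open Classical in
theorem edgeCount_eq (i j : ℕ) : edgeCount G i j = (edgesIJ G i j).card := by
  unfold edgeCount edgesIJ
  rw [← Set.ncard_coe_finset]
  congr 1
  ext s
  simp

theorem dart_sum (i j : ℕ) :
    ∑ u ∈ univ.filter (fun u => G.degree u = i),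
      ((G.neighborFinset u).filter (fun w => G.degree w = j)).card = (dartsIJ G i j).card := by
  classical
  have h : ∀ d ∈ dartsIJ G i j, d.fst ∈ univ.filter (fun u => G.degree u = i) := by
    intro d hd
    unfold dartsIJ at hd
    rw [mem_filter] at hd ⊢
    exact ⟨mem_univ _, hd.2.1⟩
  rw [card_eq_sum_card_fiberwise h]
  refine sum_congr rfl fun u hu => ?_
  rw [mem_filter] at hu
  symm
  refine card_bij (fun d _ => d.snd) ?_ ?_ ?_
  · intro d hd
    rw [mem_filter] at hd
    unfold dartsIJ at hd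
    rw [mem_filter] at hd
    rw [mem_filter, SimpleGraph.mem_neighborFinset]
    refine ⟨?_, hd.1.2.2⟩
    rw [← hd.2]; exact d.adj
  · intro d hd d' hd' h
    rw [mem_filter] at hd hd'
    exact SimpleGraph.Dart.ext _ _ (Prod.ext (hd.2.trans hd'.2.symm) h)
  · intro w hw
    rw [mem_filter, SimpleGraph.mem_neighborFinset] at hw
    refine ⟨⟨(u, w), hw.1⟩, ?_, rfl⟩
    rw [mem_filter]
    unfold dartsIJ
    rw [mem_filter]
    exact ⟨⟨mem_univ _, hu.2, hw.2⟩, rfl⟩

theorem mem_dartsIJ {i j : ℕ} {d : G.Dart} :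
    d ∈ dartsIJ G i j ↔ G.degree d.fst = i ∧ G.degree d.snd = j := by
  unfold dartsIJ; simp

theorem mem_edgesIJ {i j : ℕ} {s : Sym2 V} :
    s ∈ edgesIJ G i j ↔ s ∈ G.edgeSet ∧ ∃ v w, s = s(v, w) ∧ G.degree v = i ∧ G.degree w = j := by
  unfold edgesIJ; simp [deg_eq]

theorem dart_edge (d : G.Dart) : d.edge = s(d.fst, d.snd) := rfl

theorem darts_same (i : ℕ) : (dartsIJ G i i).card = 2 * (edgesIJ G i i).card := by
  classical
  have h : ∀ d ∈ dartsIJ G i i, d.edge ∈ edgesIJ G i i := by
    intro d hd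
    rw [mem_dartsIJ] at hd
    rw [mem_edgesIJ]
    exact ⟨d.edge_mem, d.fst, d.snd, dart_edge d, hd.1, hd.2⟩
  rw [card_eq_sum_card_fiberwise h]
  have h2 : ∀ e ∈ edgesIJ G i i, ((dartsIJ G i i).filter (fun d => d.edge = e)).card = 2 := by
    intro e he
    rw [mem_edgesIJ] at he
    obtain ⟨he, v, w, rfl, hv, hw⟩ := he
    have hadj : G.Adj v w := he
    have : (dartsIJ G i i).filter (fun d => d.edge = s(v, w)) =
        {(⟨(v, w), hadj⟩ : G.Dart), ⟨(w, v), hadj.symm⟩} := by
      ext d
      rw [mem_filter, mem_dartsIJ, mem_insert, mem_singleton, dart_edge, Sym2.eq_iff]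
      constructor
      · rintro ⟨-, ⟨h1, h2⟩ | ⟨h1, h2⟩⟩
        · left; exact SimpleGraph.Dart.ext _ _ (Prod.ext h1 h2)
        · right; exact SimpleGraph.Dart.ext _ _ (Prod.ext h1 h2)
      · rintro (rfl | rfl)
        · exact ⟨⟨hv, hw⟩, Or.inl ⟨rfl, rfl⟩⟩
        · exact ⟨⟨hw, hv⟩, Or.inr ⟨rfl, rfl⟩⟩
    rw [this, card_pair]
    intro h
    exact hadj.ne (congrArg (fun e : G.Dart => e.fst) h)
  rw [sum_congr rfl h2, sum_const, smul_eq_mul, mul_comm]

theorem darts_diff {i j : ℕ} (hij : i ≠ j) : (dartsIJ G i j).card = (edgesIJ G i j).card := by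
  classical
  have h : ∀ d ∈ dartsIJ G i j, d.edge ∈ edgesIJ G i j := by
    intro d hd
    rw [mem_dartsIJ] at hd
    rw [mem_edgesIJ]
    exact ⟨d.edge_mem, d.fst, d.snd, dart_edge d, hd.1, hd.2⟩
  rw [card_eq_sum_card_fiberwise h]
  have h2 : ∀ e ∈ edgesIJ G i j, ((dartsIJ G i j).filter (fun d => d.edge = e)).card = 1 := by
    intro e he
    rw [mem_edgesIJ] at he
    obtain ⟨he, v, w, rfl, hv, hw⟩ := he
    have hadj : G.Adj v w := he
    have : (dartsIJ G i j).filter (fun d => d.edge = s(v, w)) =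
        {(⟨(v, w), hadj⟩ : G.Dart)} := by
      ext d
      rw [mem_filter, mem_dartsIJ, mem_singleton, dart_edge, Sym2.eq_iff]
      constructor
      · rintro ⟨⟨h3, h4⟩, ⟨h1, h2⟩ | ⟨h1, h2⟩⟩
        · exact SimpleGraph.Dart.ext _ _ (Prod.ext h1 h2)
        · rw [h1, hw] at h3; exact absurd h3.symm hij
      · rintro rfl
        exact ⟨⟨hv, hw⟩, Or.inl ⟨rfl, rfl⟩⟩
    rw [this, card_singleton]
  rw [sum_congr rfl h2, sum_const, smul_eq_mul, mul_one]

/-- number of neighbours of degree five -/
def five (G : SimpleGraph V) [DecidableRel G.Adj] (w : V) : ℕ :=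
  ((G.neighborFinset w).filter (fun u => G.degree u = 5)).card

theorem five_add_bigs (w : V) : five G w + bigs G w = G.degree w := by
  unfold five bigs
  exact card_filter_add_card_filter_not _

theorem need_ge {w : V} (hw : 7 ≤ G.degree w) :
    36 * five G w + 1080 ≤ need G w + 180 * G.degree w := by
  have h := five_add_bigs (G := G) w
  unfold need ty
  have h5 : G.degree w ≠ 5 := by omega
  rw [if_neg h5]
  split_ifs <;> first | omega | (simp_all; omega) | simp_all

theorem seven_sum :
    ∑ u ∈ univ.filter (fun u => G.degree u = 5),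
      ((G.neighborFinset u).filter (fun w => 7 ≤ G.degree w)).card =
    ∑ w ∈ univ.filter (fun w => 7 ≤ G.degree w), five G w := by
  unfold five
  simp only [card_eq_sum_ones]
  refine sum_comm' fun u w => ?_
  simp only [mem_filter, mem_univ, true_and, SimpleGraph.mem_neighborFinset]
  rw [G.adj_comm]
  tauto

theorem upper (R : Rotation G) (hP : R.IsPlane) (h5 : ∀ v, 5 ≤ G.degree v) (hV : Nonempty V) :
    180 ≤ 7 * edgeCount G 5 5 + 3 * edgeCount G 5 6 := by
  classical
  have hE := R.euler hP (fun v => by have := h5 v; omega) hV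
  have hD := R.discharge
  have hN := R.notclean_le
  have e55 : ∑ u ∈ univ.filter (fun u => G.degree u = 5),
      ((G.neighborFinset u).filter (fun w => G.degree w = 5)).card = 2 * edgeCount G 5 5 := by
    rw [dart_sum, darts_same, edgeCount_eq]
  have e56 : ∑ u ∈ univ.filter (fun u => G.degree u = 5),
      ((G.neighborFinset u).filter (fun w => G.degree w = 6)).card = edgeCount G 5 6 := by
    rw [dart_sum, darts_diff (by norm_num), edgeCount_eq]
  have hsum : 5 * (univ.filter (fun u => G.degree u = 5)).card =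
      2 * edgeCount G 5 5 + edgeCount G 5 6 +
        ∑ w ∈ univ.filter (fun w => 7 ≤ G.degree w), five G w := by
    rw [← e55, ← e56, ← seven_sum, ← sum_add_distrib, ← sum_add_distrib, mul_comm,
      ← smul_eq_mul, ← sum_const]
    refine sum_congr rfl fun u hu => ?_
    rw [mem_filter] at hu
    have hc : (G.neighborFinset u).card = 5 := by
      rw [SimpleGraph.card_neighborFinset_eq_degree]; exact hu.2
    refine hc.symm.trans ?_
    rw [card_filter, card_filter, card_filter,
      ← sum_add_distrib, ← sum_add_distrib, card_eq_sum_ones]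
    refine sum_congr rfl fun w _ => ?_
    have := h5 w
    split_ifs <;> omega
  -- split the Euler sum
  have hdeg : ∑ v, (G.degree v : ℤ) + (univ.filter (fun u => G.degree u = 5)).card =
      6 * Fintype.card V + ∑ w ∈ univ.filter (fun w => 7 ≤ G.degree w), ((G.degree w : ℤ) - 6) := by
    rw [sum_filter, card_filter]
    push_cast
    rw [← sum_add_distrib, ← card_univ, card_eq_sum_ones]
    push_cast
    rw [mul_sum, ← sum_add_distrib]
    refine sum_congr rfl fun w _ => ?_
    have := h5 w
    split_ifs <;> push_cast <;> omega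
  have hneed : ∑ w ∈ univ.filter (fun w => 7 ≤ G.degree w), (36 * (five G w : ℤ))  ≤
      (∑ w, (need G w : ℤ)) + ∑ w ∈ univ.filter (fun w => 7 ≤ G.degree w),
        180 * ((G.degree w : ℤ) - 6) := by
    have h1 : ∑ w ∈ univ.filter (fun w => 7 ≤ G.degree w), (need G w : ℤ) ≤
        ∑ w, (need G w : ℤ) :=
      sum_le_sum_of_subset_of_nonneg (filter_subset _ _) (fun _ _ _ => by positivity)
    refine le_trans ?_ (add_le_add_left h1 _)
    rw [← sum_add_distrib]
    refine sum_le_sum fun w hw => ?_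
    rw [mem_filter] at hw
    have := need_ge hw.2
    push_cast
    omega
  rw [← mul_sum] at hneed
  rw [← mul_sum] at hneed
  have hneed2 : (∑ w, (need G w : ℤ)) = ((∑ w, need G w : ℕ) : ℤ) := by push_cast; rfl
  have hfive : (∑ w ∈ univ.filter (fun w => 7 ≤ G.degree w), (five G w : ℤ)) =
      ((∑ w ∈ univ.filter (fun w => 7 ≤ G.degree w), five G w : ℕ) : ℤ) := by push_cast; rfl
  rw [e55] at hD
  omega

end Pool.Agent.LightEdge
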