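import Mathlib

/-!
Plane graphs by rotation systems, and the edge counts `e_{i,j}`.
-/

namespace Pool.Agent.LightEdge

variable {V : Type}

/-- The degree of a vertex. -/
noncomputable def deg (G : SimpleGraph V) (v : V) : ℕ := (G.neighborSet v).ncard

/-- The number `e_{i,j}` of edges with one end of degree `i` and the other of degree `j`. -/
noncomputable def edgeCount (G : SimpleGraph V) (i j : ℕ) : ℕ :=
  {s : Sym2 V | s ∈ G.edgeSet ∧ ∃ v w, s = s(v, w) ∧ deg G v = i ∧ deg G w = j}.ncard

/-- A rotation system on a graph: for each vertex `v` a cyclic order of the neighbours of `v`,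
given by the map `next v` sending each neighbour of `v` to the following one. -/
structure Rotation (G : SimpleGraph V) where
  /-- the neighbour of `v` that follows `x` in the cyclic order at `v` -/
  next : V → V → V
  next_adj : ∀ v x, G.Adj v x → G.Adj v (next v x)
  cyclic : ∀ v x y, G.Adj v x → G.Adj v y → ∃ k : ℕ, (next v)^[k] x = y

/-- The face map on darts (oriented edges): `(v, x)` goes to `(next v x, v)`. -/
def Rotation.step {G : SimpleGraph V} (R : Rotation G) (d : G.Dart) : G.Dart :=
  ⟨(R.next d.fst d.snd, d.fst), (R.next_adj d.fst d.snd d.adj).symm⟩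

/-- The faces of a rotation system: the classes of darts under the equivalence relation
generated by the face map. -/
def Rotation.Face {G : SimpleGraph V} (R : Rotation G) : Type :=
  Quot (fun d d' : G.Dart => R.step d = d')

/-- The rotation system is a plane embedding: `V - E + F = 2 c`, with `c` the number of
connected components (so every component has genus `0`). -/
def Rotation.IsPlane {G : SimpleGraph V} (R : Rotation G) : Prop :=
  (Nat.card V : ℤ) - (Nat.card G.edgeSet : ℤ) + (Nat.card R.Face : ℤ)
    = 2 * (Nat.card G.ConnectedComponent : ℤ)

/-- The class of plane graphs of minimum degree `5`. -/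
def PlaneMinDegFive (G : SimpleGraph V) : Prop :=
  (∀ v, 5 ≤ deg G v) ∧ (∃ v, deg G v = 5) ∧ ∃ R : Rotation G, R.IsPlane

end Pool.Agent.LightEdge
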