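import Pool.Agent.LightEdge.Geo

namespace Pool.Agent.LightEdge

open Finset

set_option linter.unusedSectionVars false
set_option linter.unusedVariables false

variable {V : Type} [Fintype V] [DecidableEq V] {G : SimpleGraph V} [DecidableRel G.Adj]

namespace Rotation

theorem DD_cases (R : Rotation G) {w : V} (hw : ty G w = 1) (hr : ¬ R.Rich w) (hD : R.DD w) :
    (∃ y, isT (ty G y) ∧ R.Rich y ∧ R.QQ y w) ∨
      (∃ y1 y2, y1 ≠ y2 ∧ R.Good y1 ∧ R.Good y2 ∧ R.QQ y1 w ∧ R.QQ y2 w) := by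
  obtain ⟨u0, u1, u2, u3, u4, u5, u6, a0, a1, a2, a3, a4, a5, a6, C, t0, t1, t2, t3, t4, t5, t6⟩
    := hD
  obtain ⟨hwd, hwall⟩ := ty_one hw
  have zu0 : ty G u0 = 0 := hwall _ C.w0.a
  have zu1 : ty G u1 = 0 := hwall _ C.w1.a
  have zu2 : ty G u2 = 0 := hwall _ C.w2.a
  have zu3 : ty G u3 = 0 := hwall _ C.w3.a
  have zu4 : ty G u4 = 0 := hwall _ C.w4.a
  have zu5 : ty G u5 = 0 := hwall _ C.w5.a
  have zu6 : ty G u6 = 0 := hwall _ C.w6.a
  have q0 : R.QQ a0 w := ⟨u1, C.c0.a.symm, zu1, clean_nb hr C.w1.a zu1,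
    by rw [C.d6.rot.e]; exact zu0, by rw [C.d6.rot.e]; exact clean_nb hr C.w0.a zu0,
    by rw [C.d6.rot.e]; exact C.w0.rot.e⟩
  have q1 : R.QQ a1 w := ⟨u2, C.c1.a.symm, zu2, clean_nb hr C.w2.a zu2,
    by rw [C.d0.rot.e]; exact zu1, by rw [C.d0.rot.e]; exact clean_nb hr C.w1.a zu1,
    by rw [C.d0.rot.e]; exact C.w1.rot.e⟩
  have q3 : R.QQ a3 w := ⟨u4, C.c3.a.symm, zu4, clean_nb hr C.w4.a zu4,
    by rw [C.d2.rot.e]; exact zu3, by rw [C.d2.rot.e]; exact clean_nb hr C.w3.a zu3,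
    by rw [C.d2.rot.e]; exact C.w3.rot.e⟩
  have q5 : R.QQ a5 w := ⟨u6, C.c5.a.symm, zu6, clean_nb hr C.w6.a zu6,
    by rw [C.d4.rot.e]; exact zu5, by rw [C.d4.rot.e]; exact clean_nb hr C.w5.a zu5,
    by rw [C.d4.rot.e]; exact C.w5.rot.e⟩
  by_cases r0 : R.Rich a0
  · exact Or.inl ⟨a0, by rw [t0]; decide, r0, q0⟩
  by_cases r1 : R.Rich a1
  · exact Or.inl ⟨a1, by rw [t1]; decide, r1, q1⟩
  by_cases r3 : R.Rich a3
  · exact Or.inl ⟨a3, t3, r3, q3⟩
  by_cases r5 : R.Rich a5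
  · exact Or.inl ⟨a5, t5, r5, q5⟩
  obtain ⟨h1, h2, h3⟩ := R.geo C hw hr t0 t1 t2 t3 t4 t5 t6 r0 r1 r3 r5
  exact Or.inr ⟨a3, a5, h1, h2, h3, q3, q5⟩

theorem no_consec (R : Rotation G) {y x x' x'' : V} (hx : G.Adj y x)
    (e1 : R.next y x = x') (e2 : R.next y x' = x'') (hz : ty G x' = 0) (hc : R.Clean x')
    (h1 : ty G (R.next x' x) = 1) (h2 : ty G (R.next x'' x') = 1) : False := by
  have T1 : R.Tr y x x' := hc.tr3 hx e1
  have T2 : R.Tr y x' x'' := by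
    have := hc.tr2 (v := y) T1.a3.symm
    rw [e2] at this; exact this
  have h := (R.apex_step (ty_zero.1 hz) hc T1 T2).2.1
  have := (ty_one h1).2 _ h.a2
  rw [h2] at this
  exact absurd this (by decide)

theorem seven_bool (A0 A1 A2 A3 A4 A5 A6 : Prop) [Decidable A0] [Decidable A1] [Decidable A2]
    [Decidable A3] [Decidable A4] [Decidable A5] [Decidable A6] (m0 : A0 → A1 → False)
    (m1 : A1 → A2 → False) (m2 : A2 → A3 → False) (m3 : A3 → A4 → False)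
    (m4 : A4 → A5 → False) (m5 : A5 → A6 → False) (m6 : A6 → A0 → False) :
    (if A0 then 1 else 0) + (if A1 then 1 else 0) + (if A2 then 1 else 0)
      + (if A3 then 1 else 0) + (if A4 then 1 else 0) + (if A5 then 1 else 0)
      + (if A6 then 1 else 0) ≤ 3 := by
  by_cases h0 : A0 <;> by_cases h1 : A1 <;> by_cases h2 : A2 <;> by_cases h3 : A3 <;>
    by_cases h4 : A4 <;> by_cases h5 : A5 <;> by_cases h6 : A6 <;>
    first
      | exact (m0 h0 h1).elim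
      | exact (m1 h1 h2).elim
      | exact (m2 h2 h3).elim
      | exact (m3 h3 h4).elim
      | exact (m4 h4 h5).elim
      | exact (m5 h5 h6).elim
      | exact (m6 h6 h0).elim
      | simp [h0, h1, h2, h3, h4, h5, h6]

theorem card_ite_singleton (Q : Prop) [Decidable Q] (v : V) :
    (if Q then ({v} : Finset V) else ∅).card = if Q then 1 else 0 := by
  split_ifs <;> simp

open Classical in
theorem QQ_card (R : Rotation G) {y : V} (hd : G.degree y = 7) :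
    (univ.filter (fun w => ty G w = 1 ∧ R.QQ y w)).card ≤ 3 := by
  obtain ⟨x0, h⟩ := (G.degree_pos_iff_exists_adj y).1 (by omega : 0 < G.degree y)
  obtain ⟨x1, e0⟩ : ∃ z, R.next y x0 = z := ⟨_, rfl⟩
  obtain ⟨x2, e1⟩ : ∃ z, R.next y x1 = z := ⟨_, rfl⟩
  obtain ⟨x3, e2⟩ : ∃ z, R.next y x2 = z := ⟨_, rfl⟩
  obtain ⟨x4, e3⟩ : ∃ z, R.next y x3 = z := ⟨_, rfl⟩
  obtain ⟨x5, e4⟩ : ∃ z, R.next y x4 = z := ⟨_, rfl⟩
  obtain ⟨x6, e5⟩ : ∃ z, R.next y x5 = z := ⟨_, rfl⟩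
  have e6 : R.next y x6 = x0 := R.seven_close hd h e0 e1 e2 e3 e4 e5
  have j1 : G.Adj y x1 := e0 ▸ R.next_adj _ _ h
  have j2 : G.Adj y x2 := e1 ▸ R.next_adj _ _ j1
  have j3 : G.Adj y x3 := e2 ▸ R.next_adj _ _ j2
  have j4 : G.Adj y x4 := e3 ▸ R.next_adj _ _ j3
  have j5 : G.Adj y x5 := e4 ▸ R.next_adj _ _ j4
  have j6 : G.Adj y x6 := e5 ▸ R.next_adj _ _ j5
  let P : V → V → Prop := fun x x' =>
    ty G x = 0 ∧ R.Clean x ∧ ty G x' = 0 ∧ R.Clean x' ∧ ty G (R.next x' x) = 1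
  have hno : ∀ x x' x'', G.Adj y x → R.next y x = x' → R.next y x' = x'' → P x x' → P x' x'' →
      False := by
    rintro x x' x'' hx ea eb ⟨-, -, p1, p2, p3⟩ ⟨-, -, -, -, p4⟩
    exact R.no_consec hx ea eb p1 p2 p3 p4
  have hsub : (univ.filter (fun w => ty G w = 1 ∧ R.QQ y w)) ⊆
      (if P x0 x1 then {R.next x1 x0} else ∅) ∪ (if P x1 x2 then {R.next x2 x1} else ∅) ∪
      (if P x2 x3 then {R.next x3 x2} else ∅) ∪ (if P x3 x4 then {R.next x4 x3} else ∅) ∪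
      (if P x4 x5 then {R.next x5 x4} else ∅) ∪ (if P x5 x6 then {R.next x6 x5} else ∅) ∪
      (if P x6 x0 then {R.next x0 x6} else ∅) := by
    intro w hw
    rw [mem_filter] at hw
    obtain ⟨-, hw1, x, hx, p1, p2, p3, p4, p5⟩ := hw
    rw [← p5] at hw1
    subst p5
    simp only [mem_union]
    rcases R.mem_seven hd h e0 e1 e2 e3 e4 e5 hx with
      rfl | rfl | rfl | rfl | rfl | rfl | rfl
    · rw [e0] at p3 p4 hw1 ⊢
      have : P x x1 := ⟨p1, p2, p3, p4, hw1⟩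
      simp [this]
    · rw [e1] at p3 p4 hw1 ⊢
      have : P x x2 := ⟨p1, p2, p3, p4, hw1⟩
      simp [this]
    · rw [e2] at p3 p4 hw1 ⊢
      have : P x x3 := ⟨p1, p2, p3, p4, hw1⟩
      simp [this]
    · rw [e3] at p3 p4 hw1 ⊢
      have : P x x4 := ⟨p1, p2, p3, p4, hw1⟩
      simp [this]
    · rw [e4] at p3 p4 hw1 ⊢
      have : P x x5 := ⟨p1, p2, p3, p4, hw1⟩
      simp [this]
    · rw [e5] at p3 p4 hw1 ⊢
      have : P x x6 := ⟨p1, p2, p3, p4, hw1⟩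
      simp [this]
    · rw [e6] at p3 p4 hw1 ⊢
      have : P x x0 := ⟨p1, p2, p3, p4, hw1⟩
      simp [this]
  refine (card_le_card hsub).trans ?_
  have b1 := card_union_le (if P x0 x1 then ({R.next x1 x0} : Finset V) else ∅)
    (if P x1 x2 then {R.next x2 x1} else ∅)
  have b2 := card_union_le ((if P x0 x1 then ({R.next x1 x0} : Finset V) else ∅) ∪
    (if P x1 x2 then {R.next x2 x1} else ∅)) (if P x2 x3 then {R.next x3 x2} else ∅)
  have b3 := card_union_le ((if P x0 x1 then ({R.next x1 x0} : Finset V) else ∅) ∪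
    (if P x1 x2 then {R.next x2 x1} else ∅) ∪ (if P x2 x3 then {R.next x3 x2} else ∅))
    (if P x3 x4 then {R.next x4 x3} else ∅)
  have b4 := card_union_le ((if P x0 x1 then ({R.next x1 x0} : Finset V) else ∅) ∪
    (if P x1 x2 then {R.next x2 x1} else ∅) ∪ (if P x2 x3 then {R.next x3 x2} else ∅) ∪
    (if P x3 x4 then {R.next x4 x3} else ∅)) (if P x4 x5 then {R.next x5 x4} else ∅)
  have b5 := card_union_le ((if P x0 x1 then ({R.next x1 x0} : Finset V) else ∅) ∪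
    (if P x1 x2 then {R.next x2 x1} else ∅) ∪ (if P x2 x3 then {R.next x3 x2} else ∅) ∪
    (if P x3 x4 then {R.next x4 x3} else ∅) ∪ (if P x4 x5 then {R.next x5 x4} else ∅))
    (if P x5 x6 then {R.next x6 x5} else ∅)
  have b6 := card_union_le ((if P x0 x1 then ({R.next x1 x0} : Finset V) else ∅) ∪
    (if P x1 x2 then {R.next x2 x1} else ∅) ∪ (if P x2 x3 then {R.next x3 x2} else ∅) ∪
    (if P x3 x4 then {R.next x4 x3} else ∅) ∪ (if P x4 x5 then {R.next x5 x4} else ∅) ∪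
    (if P x5 x6 then {R.next x6 x5} else ∅)) (if P x6 x0 then {R.next x0 x6} else ∅)
  simp only [card_ite_singleton] at b1 b2 b3 b4 b5 b6
  have m0 := hno x0 x1 x2 h e0 e1
  have m1 := hno x1 x2 x3 j1 e1 e2
  have m2 := hno x2 x3 x4 j2 e2 e3
  have m3 := hno x3 x4 x5 j3 e3 e4
  have m4 := hno x4 x5 x6 j4 e4 e5
  have m5 := hno x5 x6 x0 j5 e5 e6
  have m6 := hno x6 x0 x1 j6 e6 e0
  refine b6.trans ?_
  have key := seven_bool _ _ _ _ _ _ _ m0 m1 m2 m3 m4 m5 m6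
  omega

end Rotation

end Pool.Agent.LightEdge
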