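import Pool.Agent.LightEdge.Dis

namespace Pool.Agent.LightEdge

open Finset

set_option linter.unusedSectionVars false
set_option linter.unusedVariables false

variable {V : Type} [Fintype V] [DecidableEq V] {G : SimpleGraph V} [DecidableRel G.Adj]

/-- the charge a vertex needs -/
def need (G : SimpleGraph V) [DecidableRel G.Adj] (w : V) : ℕ :=
  if ty G w = 1 then 72 else if ty G w = 2 then 36 else 0

namespace Rotation

open Classical in
theorem pointwise (R : Rotation G) {w : V} (hT : isT (ty G w)) :
    (need G w : ℤ) + (if R.Rich w then 18 else 0) + (if R.Good w then 3 else 0) ≤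
      (R.TT w : ℤ) + (if ty G w = 1 ∧ ¬ R.Rich w ∧ R.DD w then 6 else 0) := by
  rcases isT_iff.1 hT with h | h
  · have hn : need G w = 72 := by unfold need; rw [if_pos h]
    have hg : ¬ R.Good w := fun hg => by
      have := hg.1; rw [h] at this; exact absurd this (by decide)
    rw [if_neg hg, hn]
    by_cases hr : R.Rich w
    · have := R.A_rich h hr
      rw [if_pos hr, if_neg (by tauto)]
      push_cast; omega
    · rw [if_neg hr]
      rcases R.A_poor h hr with h1 | ⟨h1, h2⟩
      · split_ifs <;> push_cast <;> omega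
      · rw [if_pos ⟨h, hr, h2⟩]; push_cast; omega
  · have h1 : ¬ ty G w = 1 := by rw [h]; decide
    have hn : need G w = 36 := by unfold need; rw [if_neg h1, if_pos h]
    have hne : ¬ (ty G w = 1 ∧ ¬ R.Rich w ∧ R.DD w) := fun hh => h1 hh.1
    rw [hn, if_neg hne]
    obtain ⟨hb1, hb2⟩ := R.B_ge h
    by_cases hr : R.Rich w
    · have hg : ¬ R.Good w := fun hg => hg.2.1 hr
      have := hb2 hr
      rw [if_pos hr, if_neg hg]; push_cast; omega
    · rw [if_neg hr]
      by_cases hg : R.Good w
      · have := hg.2.2.1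
        rw [if_pos hg]; push_cast; omega
      · rw [if_neg hg]; push_cast; omega

open Classical in
theorem needs (R : Rotation G) :
    ∑ w ∈ univ.filter (fun w => isT (ty G w) = true), (need G w : ℤ) ≤
      ∑ w ∈ univ.filter (fun w => isT (ty G w) = true), (R.TT w : ℤ) := by
  set T := univ.filter (fun w => isT (ty G w) = true) with hTdef
  have h1 : ∑ w ∈ T, ((need G w : ℤ) + (if R.Rich w then 18 else 0) + (if R.Good w then 3 else 0))
      ≤ ∑ w ∈ T, ((R.TT w : ℤ) + (if ty G w = 1 ∧ ¬ R.Rich w ∧ R.DD w then 6 else 0)) := by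
    refine sum_le_sum fun w hw => R.pointwise ?_
    rw [hTdef, mem_filter] at hw; exact hw.2
  rw [sum_add_distrib, sum_add_distrib, sum_add_distrib] at h1
  have e1 : ∑ w ∈ T, (if R.Rich w then (18 : ℤ) else 0) = 18 * ((T.filter R.Rich).card : ℤ) := by
    rw [← sum_filter, sum_const, nsmul_eq_mul, mul_comm]
  have e2 : ∑ w ∈ T, (if R.Good w then (3 : ℤ) else 0) = 3 * ((T.filter R.Good).card : ℤ) := by
    rw [← sum_filter, sum_const, nsmul_eq_mul, mul_comm]
  have e3 : ∑ w ∈ T, (if ty G w = 1 ∧ ¬ R.Rich w ∧ R.DD w then (6 : ℤ) else 0)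
      = 6 * ((T.filter (fun w => ty G w = 1 ∧ ¬ R.Rich w ∧ R.DD w)).card : ℤ) := by
    rw [← sum_filter, sum_const, nsmul_eq_mul, mul_comm]
  rw [e1, e2, e3] at h1
  set D := T.filter (fun w => ty G w = 1 ∧ ¬ R.Rich w ∧ R.DD w) with hD
  set D1 := D.filter (fun w => ∃ y, isT (ty G y) ∧ R.Rich y ∧ R.QQ y w) with hD1
  set D2 := D.filter (fun w => ¬ ∃ y, isT (ty G y) ∧ R.Rich y ∧ R.QQ y w) with hD2
  have hsplit : D1.card + D2.card = D.card := card_filter_add_card_filter_not _
  have k1 : D1.card * 1 ≤ (T.filter R.Rich).card * 3 := by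
    refine card_mul_le_card_mul (fun w y => R.QQ y w) ?_ ?_
    · intro w hw
      rw [hD1, mem_filter] at hw
      obtain ⟨-, y, hy1, hy2, hy3⟩ := hw
      rw [Nat.one_le_iff_ne_zero, Ne, card_eq_zero]
      intro he
      have : y ∈ bipartiteAbove (fun w y => R.QQ y w) (T.filter R.Rich) w := by
        rw [mem_bipartiteAbove, mem_filter, hTdef, mem_filter]
        exact ⟨⟨⟨mem_univ _, hy1⟩, hy2⟩, hy3⟩
      rw [he] at this
      simp at this
    · intro y hy
      rw [mem_filter, hTdef, mem_filter] at hy
      refine (card_le_card ?_).trans (R.QQ_card (isT_deg hy.1.2))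
      intro w hw
      rw [mem_bipartiteBelow, hD1, mem_filter, hD, mem_filter] at hw
      rw [mem_filter]
      exact ⟨mem_univ _, hw.1.1.2.1, hw.2⟩
  have k2 : D2.card * 2 ≤ (T.filter R.Good).card * 1 := by
    refine card_mul_le_card_mul (fun w y => R.QQ y w) ?_ ?_
    · intro w hw
      rw [hD2, mem_filter, hD, mem_filter] at hw
      obtain ⟨⟨-, hw1, hw2, hw3⟩, hw4⟩ := hw
      rcases R.DD_cases hw1 hw2 hw3 with h | ⟨y1, y2, h12, g1, g2, q1, q2⟩
      · exact absurd h hw4
      · have hsub : ({y1, y2} : Finset V) ⊆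
            bipartiteAbove (fun w y => R.QQ y w) (T.filter R.Good) w := by
          intro y hy
          rw [mem_bipartiteAbove, mem_filter, hTdef, mem_filter]
          rw [mem_insert, mem_singleton] at hy
          rcases hy with rfl | rfl
          · exact ⟨⟨⟨mem_univ _, by rw [g1.1]; decide⟩, g1⟩, q1⟩
          · exact ⟨⟨⟨mem_univ _, by rw [g2.1]; decide⟩, g2⟩, q2⟩
        have := card_le_card hsub
        rwa [card_pair h12] at this
    · intro y hy
      rw [mem_filter] at hy
      rw [card_le_one]
      intro w1 h1' w2 h2'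
      rw [mem_bipartiteBelow, hD2, mem_filter, hD, mem_filter] at h1' h2'
      exact hy.2.2.2.2 w1 w2 h1'.1.1.2.1 h2'.1.1.2.1 h1'.2 h2'.2
  omega

open Classical in
theorem supply (R : Rotation G) :
    ∑ w ∈ univ.filter (fun w => isT (ty G w) = true), R.SS w ≤
      ∑ u ∈ univ.filter (fun u => G.degree u = 5),
        (6 * (∑ w ∈ G.neighborFinset u, if ty G w = 0 then 1 else 0)
          + (if R.Clean u then 0 else 90)) := by
  calc ∑ w ∈ univ.filter (fun w => isT (ty G w) = true), R.SS w
      ≤ ∑ w, R.SS w := sum_le_sum_of_subset (filter_subset _ _)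
    _ = ∑ w, ∑ u ∈ G.neighborFinset w, R.FF w u := rfl
    _ = ∑ u, ∑ w ∈ G.neighborFinset u, R.FF w u := by
        refine sum_comm' fun w u => ?_
        simp [SimpleGraph.mem_neighborFinset, G.adj_comm]
    _ = ∑ u, (if G.degree u = 5 then ∑ w ∈ G.neighborFinset u, R.shr u w else 0) := by
        refine sum_congr rfl fun u _ => ?_
        unfold FF
        by_cases hu : ty G u = 0
        · rw [if_pos (ty_zero.1 hu)]
          refine sum_congr rfl fun w _ => ?_
          rw [if_pos hu]
        · rw [if_neg (fun h => hu (ty_zero.2 h))]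
          refine sum_eq_zero fun w _ => ?_
          rw [if_neg hu]
    _ = ∑ u ∈ univ.filter (fun u => G.degree u = 5), ∑ w ∈ G.neighborFinset u, R.shr u w := by
        rw [sum_filter]
    _ ≤ _ := sum_le_sum fun u hu => R.shr_total (mem_filter.1 hu).2

open Classical in
/-- the discharging inequality -/
theorem discharge (R : Rotation G) :
    ∑ w, need G w ≤
      6 * (∑ u ∈ univ.filter (fun u => G.degree u = 5),
        ((G.neighborFinset u).filter (fun w => G.degree w = 5)).card)
        + 90 * (univ.filter (fun v => ¬ R.Clean v)).card := by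
  have h1 := R.needs
  have h2 := R.supply
  have h3 : ∑ w, need G w = ∑ w ∈ univ.filter (fun w => isT (ty G w) = true), need G w := by
    rw [sum_filter]
    refine sum_congr rfl fun w _ => ?_
    split_ifs with h
    · rfl
    · unfold need
      have : ¬ (ty G w = 1 ∨ ty G w = 2) := fun hh => h (isT_iff.2 hh)
      rw [if_neg (fun hh => this (Or.inl hh)), if_neg (fun hh => this (Or.inr hh))]
  have h4 : ∑ w ∈ univ.filter (fun w => isT (ty G w) = true), R.TT w =
      ∑ w ∈ univ.filter (fun w => isT (ty G w) = true), R.SS w +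
      90 * ((univ.filter (fun w => isT (ty G w) = true)).filter (fun v => ¬ R.Clean v)).card := by
    unfold TT
    rw [sum_add_distrib]
    congr 1
    rw [card_filter, mul_sum]
    refine sum_congr rfl fun w _ => ?_
    by_cases h : R.Clean w
    · rw [if_pos h, if_neg (not_not.2 h)]; rfl
    · rw [if_neg h, if_pos h]; rfl
  have h5 : ∑ u ∈ univ.filter (fun u => G.degree u = 5),
        (6 * (∑ w ∈ G.neighborFinset u, if ty G w = 0 then 1 else 0)
          + (if R.Clean u then 0 else 90)) =
      6 * (∑ u ∈ univ.filter (fun u => G.degree u = 5),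
        ((G.neighborFinset u).filter (fun w => G.degree w = 5)).card) +
      90 * ((univ.filter (fun u => G.degree u = 5)).filter (fun v => ¬ R.Clean v)).card := by
    rw [sum_add_distrib, mul_sum]
    congr 1
    · refine sum_congr rfl fun u _ => ?_
      rw [card_filter]
      congr 1
      refine sum_congr rfl fun w _ => ?_
      by_cases h : ty G w = 0
      · rw [if_pos h, if_pos (ty_zero.1 h)]
      · rw [if_neg h, if_neg (fun hh => h (ty_zero.2 hh))]
    · rw [card_filter, mul_sum]
      refine sum_congr rfl fun w _ => ?_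
      by_cases h : R.Clean w
      · rw [if_pos h, if_neg (not_not.2 h)]; rfl
      · rw [if_neg h, if_pos h]; rfl
  have h6 : ((univ.filter (fun w => isT (ty G w) = true)).filter (fun v => ¬ R.Clean v)).card +
      ((univ.filter (fun u => G.degree u = 5)).filter (fun v => ¬ R.Clean v)).card ≤
      (univ.filter (fun v => ¬ R.Clean v)).card := by
    rw [← card_union_of_disjoint]
    · refine card_le_card ?_
      intro v hv
      simp only [mem_union, mem_filter, mem_univ, true_and] at hv ⊢
      tauto
    · rw [disjoint_left]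
      intro v hv hv'
      simp only [mem_filter, mem_univ, true_and] at hv hv'
      have := isT_deg hv.1
      omega
  rw [h5] at h2
  rw [h3]
  have h7 : ∑ w ∈ univ.filter (fun w => isT (ty G w) = true), need G w ≤
      ∑ w ∈ univ.filter (fun w => isT (ty G w) = true), R.TT w := by exact_mod_cast h1
  omega

end Rotation

end Pool.Agent.LightEdge
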