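import Pool.Agent.LightEdge.Dis2

namespace Pool.Agent.LightEdge

open Finset

set_option linter.unusedSectionVars false
set_option linter.unusedVariables false

variable {V : Type} [Fintype V] [DecidableEq V] {G : SimpleGraph V} [DecidableRel G.Adj]

namespace Rotation

theorem step_inj (R : Rotation G) : Function.Injective R.step := by
  intro d d' h
  have h1 : R.next d.fst d.snd = R.next d'.fst d'.snd :=
    congrArg (fun e : G.Dart => e.fst) h
  have h2 : d.fst = d'.fst := congrArg (fun e : G.Dart => e.snd) h
  have h3 : d.snd = d'.snd := by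
    refine R.inj d.adj ?_ (h1.trans ?_)
    · rw [h2]; exact d'.adj
    · rw [h2]
  exact SimpleGraph.Dart.ext _ _ (Prod.ext h2 h3)

theorem step_ne (R : Rotation G) (d : G.Dart) : R.step d ≠ d := by
  intro h
  have h2 : d.fst = d.snd := congrArg (fun e : G.Dart => e.snd) h
  exact d.adj.ne h2

theorem step_step_ne (R : Rotation G) (h2 : ∀ v, 2 ≤ G.degree v) (d : G.Dart) :
    R.step (R.step d) ≠ d := by
  intro h
  have h3 : R.next d.fst d.snd = d.snd := congrArg (fun e : G.Dart => e.snd) h
  have h4 := R.iter_inj d.adj (i := 1) (j := 0) (by have := h2 d.fst; omega)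
    (by have := h2 d.fst; omega) (by simpa using h3)
  omega

theorem tr_of_step (R : Rotation G) (d : G.Dart) (h : R.step (R.step (R.step d)) = d) :
    R.Tr d.fst d.snd (R.next d.fst d.snd) := by
  have h1 : R.next (R.next d.fst d.snd) d.fst = d.snd :=
    congrArg (fun e : G.Dart => e.snd) h
  have h2 : R.next (R.next (R.next d.fst d.snd) d.fst) (R.next d.fst d.snd) = d.fst :=
    congrArg (fun e : G.Dart => e.fst) h
  rw [h1] at h2
  have a1 : G.Adj d.fst (R.next d.fst d.snd) := R.next_adj _ _ d.adj
  have a2 : G.Adj (R.next d.fst d.snd) d.snd := by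
    have := R.next_adj _ _ a1.symm
    rwa [h1] at this
  exact ⟨d.adj, a2.symm, a1.symm, rfl, h2, h1⟩

open Classical in
/-- the darts at corners that are not triangles -/
noncomputable def bad (R : Rotation G) : Finset G.Dart :=
  univ.filter (fun d => ¬ R.Tr d.fst d.snd (R.next d.fst d.snd))

open Classical in
theorem notclean_le (R : Rotation G) :
    (univ.filter (fun v => ¬ R.Clean v)).card ≤ R.bad.card := by
  refine le_trans (card_le_card (t := R.bad.image (fun d => d.fst)) ?_) card_image_le
  intro v hv
  rw [mem_filter] at hv
  have h := hv.2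
  unfold Clean at h
  push Not at h
  obtain ⟨x, hx, hn⟩ := h
  rw [mem_image]
  refine ⟨⟨(v, x), hx⟩, ?_, rfl⟩
  unfold bad
  rw [mem_filter]
  exact ⟨mem_univ _, hn⟩

open Classical in
theorem faces_le (R : Rotation G) (h2 : ∀ v, 2 ≤ G.degree v) :
    12 * Nat.card R.Face + R.bad.card ≤ 4 * Fintype.card G.Dart := by
  have : Finite R.Face := by unfold Face; infer_instance
  let _i : Fintype R.Face := Fintype.ofFinite _
  let mk : G.Dart → R.Face := fun d => Quot.mk (fun d d' : G.Dart => R.step d = d') d
  have hmk : ∀ d, mk (R.step d) = mk d := fun d =>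
    (Quot.sound (r := fun d d' : G.Dart => R.step d = d') rfl).symm
  have key : ∀ q : R.Face, 12 + (R.bad.filter (fun d => mk d = q)).card ≤
      4 * ((univ : Finset G.Dart).filter (fun d => mk d = q)).card := by
    intro q
    set S := (univ : Finset G.Dart).filter (fun d => mk d = q) with hS
    have hsub : R.bad.filter (fun d => mk d = q) ⊆ S := filter_subset_filter _ (subset_univ _)
    have hc1 := card_le_card hsub
    have hmem : ∀ d ∈ S, R.step d ∈ S := by
      intro d hd
      rw [hS, mem_filter] at hd ⊢
      exact ⟨mem_univ _, (hmk d).trans hd.2⟩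
    by_cases h4 : 4 ≤ S.card
    · omega
    · have tri : ∀ d ∈ S, S.card = 3 ∧ R.Tr d.fst d.snd (R.next d.fst d.snd) := by
        intro d hd
        have m1 := hmem d hd
        have m2 := hmem _ m1
        have m3 := hmem _ m2
        have n1 : R.step d ≠ d := R.step_ne d
        have n2 : R.step (R.step d) ≠ d := R.step_step_ne h2 d
        have n3 : R.step (R.step d) ≠ R.step d := R.step_ne _
        have hs3 : ({d, R.step d, R.step (R.step d)} : Finset G.Dart).card = 3 := by
          rw [card_insert_of_notMem, card_insert_of_notMem, card_singleton]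
          · rw [mem_singleton]; exact n3.symm
          · rw [mem_insert, mem_singleton]
            rintro (h | h)
            · exact n1 h.symm
            · exact n2 h.symm
        have hss : ({d, R.step d, R.step (R.step d)} : Finset G.Dart) ⊆ S := by
          intro e he
          rw [mem_insert, mem_insert, mem_singleton] at he
          rcases he with rfl | rfl | rfl
          · exact hd
          · exact m1
          · exact m2
        have hle := card_le_card hss
        have heq : ({d, R.step d, R.step (R.step d)} : Finset G.Dart) = S :=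
          eq_of_subset_of_card_le hss (by omega)
        refine ⟨by omega, R.tr_of_step d ?_⟩
        rw [← heq, mem_insert, mem_insert, mem_singleton] at m3
        rcases m3 with h | h | h
        · exact h
        · exact absurd (R.step_inj h) n2
        · exact absurd (R.step_inj (R.step_inj h)) n1
      obtain ⟨d0, hd0⟩ := Quot.exists_rep q
      have hd0S : d0 ∈ S := by rw [hS, mem_filter]; exact ⟨mem_univ _, hd0⟩
      have hemp : R.bad.filter (fun d => mk d = q) = ∅ := by
        rw [filter_eq_empty_iff]
        intro d hd hdq
        unfold bad at hd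
        rw [mem_filter] at hd
        exact hd.2 (tri d (by rw [hS, mem_filter]; exact ⟨mem_univ _, hdq⟩)).2
      rw [hemp, card_empty, (tri d0 hd0S).1]
  have e1 : ∑ q : R.Face, (R.bad.filter (fun d => mk d = q)).card = R.bad.card :=
    (card_eq_sum_card_fiberwise (fun d _ => mem_univ (mk d))).symm
  have e2 : ∑ q : R.Face, ((univ : Finset G.Dart).filter (fun d => mk d = q)).card
      = Fintype.card G.Dart := by
    rw [← card_univ]
    exact (card_eq_sum_card_fiberwise (fun d _ => mem_univ (mk d))).symm
  have h := sum_le_sum (fun q (_ : q ∈ (univ : Finset R.Face)) => key q)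
  rw [sum_add_distrib, e1, ← mul_sum, e2, sum_const, card_univ, smul_eq_mul] at h
  rw [Nat.card_eq_fintype_card]
  omega

/-- the consequence of Euler's formula -/
theorem euler (R : Rotation G) (hP : R.IsPlane) (h2 : ∀ v, 2 ≤ G.degree v) (hV : Nonempty V) :
    24 + (R.bad.card : ℤ) + 2 * ∑ v, (G.degree v : ℤ) ≤ 12 * Fintype.card V := by
  have h1 := R.faces_le h2
  unfold IsPlane at hP
  have hc : 1 ≤ Nat.card G.ConnectedComponent := by
    have : Nonempty G.ConnectedComponent := ⟨G.connectedComponentMk hV.some⟩
    have : Finite G.ConnectedComponent := by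
      unfold SimpleGraph.ConnectedComponent; infer_instance
    exact Nat.card_pos
  have h3 := G.dart_card_eq_sum_degrees
  have h4 := G.dart_card_eq_twice_card_edges
  have h5 : Nat.card G.edgeSet = G.edgeFinset.card := by
    rw [Nat.card_eq_fintype_card, SimpleGraph.edgeFinset_card]
  rw [h5, Nat.card_eq_fintype_card] at hP
  have h6 : ∑ v, (G.degree v : ℤ) = ((∑ v, G.degree v : ℕ) : ℤ) := by push_cast; rfl
  rw [h6, ← h3]
  omega

end Rotation

end Pool.Agent.LightEdge
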