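import Pool.Agent.LightEdge.Count

namespace Pool.Agent.LightEdge

open Finset

set_option linter.unusedSectionVars false
set_option linter.unusedVariables false
set_option maxRecDepth 100000

/-- entry `x` of row `v` is the neighbour following `x` at `v`, or `99` if `x` is no neighbour -/
def tab : List (List ℕ) := [
  [99, 2, 3, 4, 5, 1, 99, 99, 99, 99, 99, 99, 99, 99, 99, 99, 99, 99, 99, 99, 99, 99, 99, 99, 99],
  [5, 99, 0, 99, 99, 6, 7, 2, 99, 99, 99, 99, 99, 99, 99, 99, 99, 99, 99, 99, 99, 99, 99, 99, 99],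
  [1, 7, 99, 0, 99, 99, 99, 8, 9, 10, 3, 99, 99, 99, 99, 99, 99, 99, 99, 99, 99, 99, 99, 99, 99],
  [2, 99, 10, 99, 0, 99, 99, 99, 99, 99, 11, 4, 99, 99, 99, 99, 99, 99, 99, 99, 99, 99, 99, 99, 99],
  [3, 99, 99, 11, 99, 0, 99, 99, 99, 99, 99, 12, 13, 14, 5, 99, 99, 99, 99, 99, 99, 99, 99, 99, 99],
  [4, 0, 99, 99, 14, 99, 1, 99, 99, 99, 99, 99, 99, 99, 6, 99, 99, 99, 99, 99, 99, 99, 99, 99, 99],
  [99, 5, 99, 99, 99, 14, 99, 1, 99, 99, 99, 99, 99, 99, 15, 16, 17, 7, 99, 99, 99, 99, 99, 99, 99],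
  [99, 6, 1, 99, 99, 99, 17, 99, 2, 99, 99, 99, 99, 99, 99, 99, 99, 8, 99, 99, 99, 99, 99, 99, 99],
  [99, 99, 7, 99, 99, 99, 99, 17, 99, 2, 99, 99, 99, 99, 99, 99, 99, 18, 9, 99, 99, 99, 99, 99, 99],
  [99, 99, 8, 99, 99, 99, 99, 99, 18, 99, 2, 99, 99, 99, 99, 99, 99, 99, 19, 10, 99, 99, 99, 99, 99],
  [99, 99, 9, 2, 99, 99, 99, 99, 99, 19, 99, 3, 99, 99, 99, 99, 99, 99, 99, 11, 99, 99, 99, 99, 99],
  [99, 99, 99, 10, 3, 99, 99, 99, 99, 99, 19, 99, 4, 99, 99, 99, 99, 99, 99, 20, 21, 12, 99, 99, 99],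
  [99, 99, 99, 99, 11, 99, 99, 99, 99, 99, 99, 21, 99, 4, 99, 99, 99, 99, 99, 99, 99, 22, 13, 99, 99],
  [99, 99, 99, 99, 12, 99, 99, 99, 99, 99, 99, 99, 22, 99, 4, 14, 99, 99, 99, 99, 99, 99, 15, 99, 99],
  [99, 99, 99, 99, 13, 4, 5, 99, 99, 99, 99, 99, 99, 15, 99, 6, 99, 99, 99, 99, 99, 99, 99, 99, 99],
  [99, 99, 99, 99, 99, 99, 14, 99, 99, 99, 99, 99, 99, 22, 13, 99, 6, 99, 99, 99, 99, 99, 16, 99, 99],
  [99, 99, 99, 99, 99, 99, 15, 99, 99, 99, 99, 99, 99, 99, 99, 22, 99, 6, 99, 99, 99, 99, 23, 17, 99],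
  [99, 99, 99, 99, 99, 99, 16, 6, 7, 99, 99, 99, 99, 99, 99, 99, 23, 99, 8, 99, 99, 99, 99, 18, 99],
  [99, 99, 99, 99, 99, 99, 99, 99, 17, 8, 99, 99, 99, 99, 99, 99, 99, 23, 99, 9, 19, 99, 99, 24, 20],
  [99, 99, 99, 99, 99, 99, 99, 99, 99, 18, 9, 10, 99, 99, 99, 99, 99, 99, 20, 99, 11, 99, 99, 99, 99],
  [99, 99, 99, 99, 99, 99, 99, 99, 99, 99, 99, 19, 99, 99, 99, 99, 99, 99, 24, 18, 99, 11, 99, 99, 21],
  [99, 99, 99, 99, 99, 99, 99, 99, 99, 99, 99, 20, 11, 99, 99, 99, 99, 99, 99, 99, 24, 99, 12, 99, 22],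
  [99, 99, 99, 99, 99, 99, 99, 99, 99, 99, 99, 99, 21, 12, 99, 13, 15, 99, 99, 99, 99, 24, 99, 16, 23],
  [99, 99, 99, 99, 99, 99, 99, 99, 99, 99, 99, 99, 99, 99, 99, 99, 22, 16, 17, 99, 99, 99, 24, 99, 18],
  [99, 99, 99, 99, 99, 99, 99, 99, 99, 99, 99, 99, 99, 99, 99, 99, 99, 99, 23, 99, 18, 20, 21, 22, 99]]

def M (v x : Fin 25) : ℕ := (tab.getD v.val []).getD x.val 99

def nx (v x : Fin 25) : Fin 25 := Fin.ofNat 25 (M v x)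

/-- the extremal triangulation on 25 vertices -/
def Ex25 : SimpleGraph (Fin 25) where
  Adj v x := M v x < 25
  symm := ⟨by decide +kernel⟩
  loopless := ⟨by decide +kernel⟩

instance : DecidableRel Ex25.Adj := fun v x => inferInstanceAs (Decidable (M v x < 25))

def degTab : List ℕ := [5, 5, 7, 5, 7, 5, 7, 5, 5, 5, 5, 7, 5, 5, 5, 5, 5, 6, 7, 5, 5, 5, 7, 5, 5]

theorem tri_all : ∀ v x : Fin 25, M v x < 25 →
    (M x (nx v x) < 25 ∧ M (nx v x) v < 25 ∧ nx x (nx v x) = v ∧ nx (nx v x) v = x) := by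
  decide +kernel

/-- a first neighbour of each vertex -/
def bs (v : Fin 25) : Fin 25 := if v = 0 then 1 else Fin.ofNat 25 ([1, 0, 0, 0, 0, 0, 1, 1, 2, 2, 2, 3, 4, 4, 4, 6, 6, 6, 8, 9, 11, 11, 12, 16, 18].getD v.val 0)

theorem cyc_all : ∀ v x : Fin 25, M v x < 25 →
    (∃ k : Fin 7, (nx v)^[k.val] (bs v) = x) ∧ (∃ k : Fin 7, (nx v)^[k.val] x = bs v) := by
  decide +kernel

theorem deg_all : ∀ v : Fin 25, Ex25.degree v = degTab.getD v.val 0 := by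
  decide +kernel

end Pool.Agent.LightEdge
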