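import Pool.Agent.LightEdge.Example

namespace Pool.Agent.LightEdge

open Finset

set_option linter.unusedSectionVars false
set_option linter.unusedVariables false
set_option maxRecDepth 100000

namespace Rotation

variable {V : Type} [Fintype V] [DecidableEq V] {G : SimpleGraph V} [DecidableRel G.Adj]

/-- if all faces are triangles, there are three times as many darts as faces -/
theorem faces_triangulation (R : Rotation G) (h2 : ∀ v, 2 ≤ G.degree v)
    (hT : ∀ d : G.Dart, R.Tr d.fst d.snd (R.next d.fst d.snd)) :
    3 * Nat.card R.Face = Fintype.card G.Dart := by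
  classical
  have : Finite R.Face := by unfold Face; infer_instance
  let _i : Fintype R.Face := Fintype.ofFinite _
  let mk : G.Dart → R.Face := fun d => Quot.mk (fun d d' : G.Dart => R.step d = d') d
  have hs3 : ∀ d : G.Dart, R.step (R.step (R.step d)) = d := by
    intro d
    have h := hT d
    have e1 : R.next (R.next d.fst d.snd) d.fst = d.snd := h.e3
    have e2 : R.next d.snd (R.next d.fst d.snd) = d.fst := h.e2
    refine SimpleGraph.Dart.ext _ _ (Prod.ext ?_ ?_)
    · show R.next (R.next (R.next d.fst d.snd) d.fst) (R.next d.fst d.snd) = d.fst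
      rw [e1, e2]
    · show R.next (R.next d.fst d.snd) d.fst = d.snd
      exact e1
  let f : G.Dart → Finset G.Dart := fun d => {d, R.step d, R.step (R.step d)}
  have hf : ∀ d, f (R.step d) = f d := by
    intro d
    show ({R.step d, R.step (R.step d), R.step (R.step (R.step d))} : Finset G.Dart) =
      {d, R.step d, R.step (R.step d)}
    rw [hs3]
    ext e
    simp only [mem_insert, mem_singleton]
    tauto
  have hmk : ∀ d, mk (R.step d) = mk d := fun d =>
    (Quot.sound (r := fun d d' : G.Dart => R.step d = d') rfl).symm
  let F : R.Face → Finset G.Dart := Quot.lift f (fun a b (h : R.step a = b) => by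
    rw [← h]; exact (hf a).symm)
  have hF : ∀ d, F (mk d) = f d := fun d => rfl
  have key : ∀ q : R.Face, ((univ : Finset G.Dart).filter (fun d => mk d = q)).card = 3 := by
    intro q
    obtain ⟨d, hd⟩ := Quot.exists_rep q
    have hd' : mk d = q := hd
    have hS : (univ : Finset G.Dart).filter (fun d => mk d = q) = f d := by
      ext e
      rw [mem_filter]
      constructor
      · rintro ⟨-, he⟩
        have h1 : f e = f d := by rw [← hF, ← hF, he, hd']
        rw [← h1]
        exact mem_insert_self _ _
      · intro he
        refine ⟨mem_univ _, ?_⟩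
        have he' : e = d ∨ e = R.step d ∨ e = R.step (R.step d) := by
          simpa [f] using he
        rcases he' with rfl | rfl | rfl
        · exact hd'
        · rw [hmk]; exact hd'
        · rw [hmk, hmk]; exact hd'
    rw [hS]
    have n1 : R.step d ≠ d := R.step_ne d
    have n2 : R.step (R.step d) ≠ d := R.step_step_ne h2 d
    have n3 : R.step (R.step d) ≠ R.step d := R.step_ne _
    show ({d, R.step d, R.step (R.step d)} : Finset G.Dart).card = 3
    rw [card_insert_of_notMem, card_insert_of_notMem, card_singleton]
    · rw [mem_singleton]; exact n3.symm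
    · rw [mem_insert, mem_singleton]
      rintro (h | h)
      · exact n1 h.symm
      · exact n2 h.symm
  have e2 : ∑ q : R.Face, ((univ : Finset G.Dart).filter (fun d => mk d = q)).card
      = Fintype.card G.Dart := by
    rw [← card_univ]
    exact (card_eq_sum_card_fiberwise (fun d _ => mem_univ (mk d))).symm
  rw [sum_congr rfl (fun q _ => key q), sum_const, card_univ, smul_eq_mul] at e2
  rw [Nat.card_eq_fintype_card]
  omega

end Rotation

/-- the rotation system of the example -/
def ExR : Rotation Ex25 where
  next := nx
  next_adj := by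
    intro v x h
    exact ((by decide +kernel : ∀ v x : Fin 25, M v x < 25 → M v (nx v x) < 25) v x h)
  cyclic := by
    intro v x y hx hy
    obtain ⟨-, k, hk⟩ := cyc_all v x hx
    obtain ⟨⟨l, hl⟩, -⟩ := cyc_all v y hy
    refine ⟨l.val + k.val, ?_⟩
    rw [Function.iterate_add_apply, hk, hl]

theorem ex_tri (d : Ex25.Dart) : ExR.Tr d.fst d.snd (ExR.next d.fst d.snd) := by
  obtain ⟨h1, h2, h3, h4⟩ := tri_all d.fst d.snd d.adj
  exact ⟨d.adj, h1, h2, rfl, h3, h4⟩

theorem ex_deg_five (v : Fin 25) : 5 ≤ Ex25.degree v := by
  rw [deg_all]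
  revert v
  decide +kernel

theorem ex_conn : Ex25.Connected := by
  have h0 : ∀ k : ℕ, ∀ v : Fin 25, v.val = k → Ex25.Reachable 0 v := by
    intro k
    induction k using Nat.strong_induction_on with
    | _ k ih =>
      intro v hv
      by_cases hk : v = 0
      · rw [hk]
      · have h1 : (bs v).val < v.val ∧ M (bs v) v < 25 := by
          revert hk
          exact (by decide +kernel : ∀ v : Fin 25, ¬ v = 0 → (bs v).val < v.val ∧ M (bs v) v < 25) v
        have h2 := ih (bs v).val (by omega) (bs v) rfl
        have h3 : Ex25.Adj (bs v) v := h1.2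
        exact h2.trans h3.reachable
  have : Nonempty (Fin 25) := ⟨0⟩
  exact ⟨fun u v => ((h0 _ u rfl).symm).trans (h0 _ v rfl)⟩

theorem ex_plane : ExR.IsPlane := by
  have h2 : ∀ v, 2 ≤ Ex25.degree v := fun v => by have := ex_deg_five v; omega
  have h1 := ExR.faces_triangulation h2 ex_tri
  have h3 := Ex25.dart_card_eq_sum_degrees
  have h4 := Ex25.dart_card_eq_twice_card_edges
  have h5 : Nat.card Ex25.edgeSet = Ex25.edgeFinset.card := by
    rw [Nat.card_eq_fintype_card, SimpleGraph.edgeFinset_card]
  have h6 : ∑ v, Ex25.degree v = 138 := by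
    simp only [deg_all]
    decide +kernel
  have h7 : Nat.card Ex25.ConnectedComponent = 1 := by
    have := ex_conn
    rw [Nat.card_eq_one_iff_unique]
    refine ⟨?_, ⟨Ex25.connectedComponentMk 0⟩⟩
    exact this.preconnected.subsingleton_connectedComponent
  have h8 : Nat.card (Fin 25) = 25 := by simp
  unfold Rotation.IsPlane
  rw [h5, h7, h8]
  omega

theorem ex_class : PlaneMinDegFive Ex25 := by
  refine ⟨fun v => ?_, ⟨0, ?_⟩, ExR, ex_plane⟩
  · rw [deg_eq]; exact ex_deg_five v
  · rw [deg_eq, deg_all]; decide +kernel

theorem ex_55 : edgeCount Ex25 5 5 = 24 := by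
  have h := dart_sum (G := Ex25) 5 5
  rw [darts_same, ← edgeCount_eq] at h
  simp only [deg_all] at h
  have h2 : ∑ u ∈ univ.filter (fun u : Fin 25 => degTab.getD u.val 0 = 5),
      ((Ex25.neighborFinset u).filter (fun w => degTab.getD w.val 0 = 5)).card = 48 := by
    decide +kernel
  omega

theorem ex_56 : edgeCount Ex25 5 6 = 4 := by
  have h := dart_sum (G := Ex25) 5 6
  rw [darts_diff (by norm_num), ← edgeCount_eq] at h
  simp only [deg_all] at h
  have h2 : ∑ u ∈ univ.filter (fun u : Fin 25 => degTab.getD u.val 0 = 5),
      ((Ex25.neighborFinset u).filter (fun w => degTab.getD w.val 0 = 6)).card = 4 := by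
    decide +kernel
  omega

end Pool.Agent.LightEdge
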