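import Pool.Agent.LightEdge.AWord

namespace Pool.Agent.LightEdge

open Finset

set_option linter.unusedSectionVars false
set_option linter.unusedVariables false

variable {V : Type} [Fintype V] [DecidableEq V] {G : SimpleGraph V} [DecidableRel G.Adj]

namespace Rotation

/-- `w` lies across an edge of the link of `y` with clean ends of degree five -/
def QQ (R : Rotation G) (y w : V) : Prop :=
  ∃ x, G.Adj y x ∧ ty G x = 0 ∧ R.Clean x ∧ ty G (R.next y x) = 0 ∧ R.Clean (R.next y x) ∧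
    R.next (R.next y x) x = w

/-- vertices that pay -/
def Good (R : Rotation G) (y : V) : Prop :=
  ty G y = 2 ∧ ¬ R.Rich y ∧ 39 ≤ R.TT y ∧
    ∀ w1 w2, ty G w1 = 1 → ty G w2 = 1 → R.QQ y w1 → R.QQ y w2 → w1 = w2

theorem sh_g : ∀ t : Fin 4, t ≠ 0 → 3 ≤ sh 2 t 2 0 0 ∧ 3 ≤ sh 2 0 0 2 t := by decide +kernel

theorem clean_of_poor {R : Rotation G} {w : V} (h : ¬ R.Rich w) : R.Clean w := by
  by_contra hc; exact h (Or.inl hc)

theorem clean_nb {R : Rotation G} {w u : V} (h : ¬ R.Rich w) (hu : G.Adj w u)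
    (hu0 : ty G u = 0) : R.Clean u := by
  by_contra hc; exact h (Or.inr ⟨u, hu, hu0, hc⟩)

theorem shr_ge (R : Rotation G) {u x0 x1 x2 x3 x4 : V} (e0 : R.next u x0 = x1)
    (e1 : R.next u x1 = x2) (e2 : R.next u x2 = x3) (e3 : R.next u x3 = x4) (hu : ty G u = 0) :
    sh (ty G x0) (ty G x1) (ty G x2) (ty G x3) (ty G x4) ≤ R.FF x0 u := by
  unfold FF shr
  rw [if_pos hu, e0, e1, e2, e3]
  omega

theorem geo (R : Rotation G) {w u0 u1 u2 u3 u4 u5 u6 a0 a1 a2 a3 a4 a5 a6 : V}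
    (C : R.Cfg w u0 u1 u2 u3 u4 u5 u6 a0 a1 a2 a3 a4 a5 a6)
    (hw : ty G w = 1) (hr : ¬ R.Rich w)
    (t0 : ty G a0 = 2) (t1 : ty G a1 = 2) (t2 : ty G a2 = 0) (t3 : isT (ty G a3))
    (t4 : ty G a4 = 0) (t5 : isT (ty G a5)) (t6 : ty G a6 = 0)
    (r0 : ¬ R.Rich a0) (r1 : ¬ R.Rich a1) (r3 : ¬ R.Rich a3) (r5 : ¬ R.Rich a5) :
    a3 ≠ a5 ∧ R.Good a3 ∧ R.Good a5 := by
  obtain ⟨hwd, hwall⟩ := ty_one hw
  have zu0 : ty G u0 = 0 := hwall _ C.w0.a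
  have zu1 : ty G u1 = 0 := hwall _ C.w1.a
  have zu2 : ty G u2 = 0 := hwall _ C.w2.a
  have zu3 : ty G u3 = 0 := hwall _ C.w3.a
  have zu4 : ty G u4 = 0 := hwall _ C.w4.a
  have zu5 : ty G u5 = 0 := hwall _ C.w5.a
  have zu6 : ty G u6 = 0 := hwall _ C.w6.a
  have kw := clean_of_poor hr
  have k0 := clean_of_poor r0
  have k1 := clean_of_poor r1
  have k3 := clean_of_poor r3
  have k5 := clean_of_poor r5
  have d0 : G.degree a0 = 7 := (ty_two t0).1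
  have d1 : G.degree a1 = 7 := (ty_two t1).1
  have d3 : G.degree a3 = 7 := isT_deg t3
  have d5 : G.degree a5 = 7 := isT_deg t5
  have d2 : G.degree a2 = 5 := ty_zero.1 t2
  have d4 : G.degree a4 = 5 := ty_zero.1 t4
  have d6 : G.degree a6 = 5 := ty_zero.1 t6
  -- the vertex a2
  have ka2 : R.Clean a2 := clean_nb r1 C.c1.a2 t2
  obtain ⟨p, hp⟩ : ∃ p, R.next a2 a1 = p := ⟨_, rfl⟩
  have Tp1 : R.Tr a2 a1 p := ka2.tr C.c1.a2.symm hp
  have hp' : R.next a2 p = a3 :=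
    R.five_close d2 C.c2.a2 C.c2.rot.e C.b2.rot'.e C.c1.rot'.e hp
  have Tp2 : R.Tr a2 p a3 := ka2.tr Tp1.a3.symm hp'
  -- the vertex a4
  have ka4 : R.Clean a4 := clean_nb r3 C.c3.a2 t4
  obtain ⟨g, hg⟩ : ∃ p, R.next a4 a3 = p := ⟨_, rfl⟩
  have Tg1 : R.Tr a4 a3 g := ka4.tr C.c3.a2.symm hg
  have hg' : R.next a4 g = a5 :=
    R.five_close d4 C.c4.a2 C.c4.rot.e C.b4.rot'.e C.c3.rot'.e hg
  have Tg2 : R.Tr a4 g a5 := ka4.tr Tg1.a3.symm hg'
  -- the vertex a6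
  have ka6 : R.Clean a6 := clean_nb r5 C.c5.a2 t6
  obtain ⟨q, hq⟩ : ∃ p, R.next a6 a5 = p := ⟨_, rfl⟩
  have Tq1 : R.Tr a6 a5 q := ka6.tr C.c5.a2.symm hq
  have hq' : R.next a6 q = a0 :=
    R.five_close d6 C.c6.a2 C.c6.rot.e C.b6.rot'.e C.c5.rot'.e hq
  have Tq2 : R.Tr a6 q a0 := ka6.tr Tq1.a3.symm hq'
  -- rotation at a3 : g a4 u4 u3 a2 p c
  obtain ⟨c, hc⟩ : ∃ c, R.next a3 p = c := ⟨_, rfl⟩
  have Tc1 : R.Tr a3 p c := k3.tr Tp2.a2.symm hc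
  have A3a : R.next a3 g = a4 := Tg1.rot.e
  have A3b : R.next a3 a4 = u4 := C.c3.rot.e
  have A3c : R.next a3 u4 = u3 := C.d2.rot.e
  have A3d : R.next a3 u3 = a2 := C.c2.rot'.e
  have A3e : R.next a3 a2 = p := Tp2.rot'.e
  have hc' : R.next a3 c = g :=
    R.seven_close d3 Tg1.rot.a A3a A3b A3c A3d A3e hc
  have Tc2 : R.Tr a3 c g := k3.tr Tc1.a3.symm hc'
  -- rotation at a5 : q a6 u6 u5 a4 g c'
  obtain ⟨f, hf⟩ : ∃ c, R.next a5 g = c := ⟨_, rfl⟩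
  have Tf1 : R.Tr a5 g f := k5.tr Tg2.a2.symm hf
  have A5a : R.next a5 q = a6 := Tq1.rot.e
  have A5b : R.next a5 a6 = u6 := C.c5.rot.e
  have A5c : R.next a5 u6 = u5 := C.d4.rot.e
  have A5d : R.next a5 u5 = a4 := C.c4.rot'.e
  have A5e : R.next a5 a4 = g := Tg2.rot'.e
  have hf' : R.next a5 f = q :=
    R.seven_close d5 Tq1.rot.a A5a A5b A5c A5d A5e hf
  have Tf2 : R.Tr a5 f q := k5.tr Tf1.a3.symm hf'
  -- rotation at a1 : p a2 u2 u1 a0 rr s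
  obtain ⟨rr, hrr⟩ : ∃ c, R.next a1 a0 = c := ⟨_, rfl⟩
  have Tr1 : R.Tr a1 a0 rr := k1.tr C.c0.a2.symm hrr
  obtain ⟨s, hs⟩ : ∃ c, R.next a1 rr = c := ⟨_, rfl⟩
  have Ts1 : R.Tr a1 rr s := k1.tr Tr1.a3.symm hs
  have A1a : R.next a1 p = a2 := Tp1.rot.e
  have A1b : R.next a1 a2 = u2 := C.c1.rot.e
  have A1c : R.next a1 u2 = u1 := C.d0.rot.e
  have A1d : R.next a1 u1 = a0 := C.c0.rot'.e
  have hs' : R.next a1 s = p :=
    R.seven_close d1 Tp1.rot.a A1a A1b A1c A1d hrr hs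
  have Ts2 : R.Tr a1 s p := k1.tr Ts1.a3.symm hs'
  -- rotation at a0 : a1 u1 u0 a6 q s' rr
  obtain ⟨z, hz⟩ : ∃ c, R.next a0 q = c := ⟨_, rfl⟩
  have Tz1 : R.Tr a0 q z := k0.tr Tq2.a2.symm hz
  have A0a : R.next a0 a1 = u1 := C.c0.rot.e
  have A0b : R.next a0 u1 = u0 := C.d6.rot.e
  have A0c : R.next a0 u0 = a6 := C.c6.rot'.e
  have A0d : R.next a0 a6 = q := Tq2.rot'.e
  obtain ⟨r', hr'⟩ : ∃ c, R.next a0 z = c := ⟨_, rfl⟩
  have hr'' : R.next a0 r' = a1 :=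
    R.seven_close d0 C.c0.a2 A0a A0b A0c A0d hz hr'
  have Tr0 : R.Tr a0 rr a1 := Tr1.rot
  have Tz2 : R.Tr a0 z r' := k0.tr Tz1.a3.symm hr'
  have er : r' = rr := R.inj Tz2.a3.symm Tr0.a (hr''.trans Tr0.e.symm)
  rw [er] at Tz2 hr' hr''
  clear er
  -- types
  have n1 := R.seven_distinct d1 Tr1.a hrr hs hs' A1a A1b A1c
  have zrr : ty G rr = 0 := R.two_zero t1 Tr1.a (by rw [t0]; decide) Ts1.a n1.1
  have zs : ty G s = 0 := R.two_zero t1 Tr1.a (by rw [t0]; decide) Ts2.a n1.2.1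
  have zp : ty G p = 0 := R.two_zero t1 Tr1.a (by rw [t0]; decide) Tp1.rot.a n1.2.2.1
  have n0 := R.seven_distinct d0 C.c0.a2 A0a A0b A0c A0d hz hr'
  have zq : ty G q = 0 := R.two_zero t0 C.c0.a2 (by rw [t1]; decide) Tz1.a n0.2.2.2.1
  have zz : ty G z = 0 := R.two_zero t0 C.c0.a2 (by rw [t1]; decide) Tz2.a n0.2.2.2.2.1
  have kp : R.Clean p := clean_nb r1 Tp1.rot.a zp
  have ks : R.Clean s := clean_nb r1 Ts2.a zs
  have krr : R.Clean rr := clean_nb r1 Ts1.a zrr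
  have kq : R.Clean q := clean_nb r0 Tz1.a zq
  have kz : R.Clean z := clean_nb r0 Tz2.a zz
  -- p : c a3 a2 a1 s
  have P1 : R.next p s = c := R.five_close (ty_zero.1 zp) Tc1.rot.a Tc1.rot.e Tp2.rot.e
    Tp1.rot'.e Ts2.rot'.e
  have TP : R.Tr p s c := kp.tr Ts2.a2.symm P1
  -- q : z a0 a6 a5 f
  have Q1 : R.next q f = z := R.five_close (ty_zero.1 zq) Tz1.rot.a Tz1.rot.e Tq2.rot.e
    Tq1.rot'.e Tf2.rot'.e
  have TQ : R.Tr q f z := kq.tr Tf2.a2.symm Q1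
  -- s : c p a1 rr y
  obtain ⟨y, hy⟩ : ∃ c, R.next s rr = c := ⟨_, rfl⟩
  have Ty1 : R.Tr s rr y := ks.tr Ts1.a2.symm hy
  have S1 : R.next s y = c := R.five_close (ty_zero.1 zs) TP.rot.a TP.rot.e Ts2.rot.e
    Ts1.rot'.e hy
  have Ty2 : R.Tr s y c := ks.tr Ty1.a3.symm S1
  -- rr : s a1 a0 z y
  obtain ⟨y', hy'⟩ : ∃ c, R.next rr z = c := ⟨_, rfl⟩
  have Ty3 : R.Tr rr z y' := krr.tr Tz2.a2.symm hy'
  have R1 : R.next rr y' = s := R.five_close (ty_zero.1 zrr) Ts1.a2 Ts1.rot.e Tr1.rot'.e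
    Tz2.rot'.e hy'
  have R2 : R.next rr y = s := Ty1.rot.e
  have ey : y' = y := R.inj Ty3.a3.symm Ty1.rot.a (R1.trans R2.symm)
  rw [ey] at Ty3
  clear ey
  -- z : rr a0 q f y
  obtain ⟨y'', hy''⟩ : ∃ c, R.next z f = c := ⟨_, rfl⟩
  have Ty4 : R.Tr z f y'' := kz.tr TQ.a2.symm hy''
  have Z1 : R.next z y'' = rr := R.five_close (ty_zero.1 zz) Tz2.a2 Tz2.rot.e Tz1.rot'.e
    TQ.rot'.e hy''
  have Z2 : R.next z y = rr := Ty3.rot.e
  have ey2 : y'' = y := R.inj Ty4.a3.symm Ty3.rot.a (Z1.trans Z2.symm)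
  rw [ey2] at Ty4
  clear ey2
  have hyc : y ≠ c := Ty2.a2.ne
  have hyf : f ≠ y := Ty4.a2.ne
  have h35 : a3 ≠ a5 :=
    (R.five_distinct d4 C.c4.a2 C.c4.rot.e C.b4.rot'.e C.c3.rot'.e hg).2.2.1
  -- main alternative
  have main : ty G a3 = 2 ∧ ty G a5 = 2 ∧ ¬ (ty G g = 0 ∧ ty G c = 0) ∧
      ¬ (ty G g = 0 ∧ ty G f = 0) ∧ 39 ≤ R.SS a3 ∧ 39 ≤ R.SS a5 := by
    by_cases zg : ty G g = 0
    · have kg : R.Clean g := clean_nb r3 Tg1.rot.a zg
      have dg : G.degree g = 5 := ty_zero.1 zg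
      have G1 : R.next g c = f := R.five_close dg Tf1.a2 Tf1.rot.e Tg2.rot.e Tg1.rot'.e
        Tc2.rot'.e
      have TG : R.Tr g c f := kg.tr Tc2.a2.symm G1
      have zc : ty G c ≠ 0 := by
        intro h0
        have h1 : R.next c s = f := R.five_close (ty_zero.1 h0) TG.rot.a TG.rot.e Tc2.rot.e
          Tc1.rot'.e TP.rot'.e
        have h2 : R.next c s = y := Ty2.rot'.e
        exact hyf (h1.symm.trans h2)
      have zf : ty G f ≠ 0 := by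
        intro h0
        have h1 : R.next f g = y := R.five_close (ty_zero.1 h0) Ty4.a2 Ty4.rot.e
          TQ.rot.e Tf2.rot.e Tf1.rot'.e
        have h2 : R.next f g = c := TG.rot'.e
        exact hyc (h1.symm.trans h2)
      have ta3 : ty G a3 = 2 := by
        rcases isT_iff.1 t3 with h | h
        · exact absurd ((ty_one h).2 c Tc2.a) zc
        · exact h
      have ta5 : ty G a5 = 2 := by
        rcases isT_iff.1 t5 with h | h
        · exact absurd ((ty_one h).2 f Tf2.a) zf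
        · exact h
      have m1 := R.five_distinct dg Tf1.a2 Tf1.rot.e Tg2.rot.e Tg1.rot'.e Tc2.rot'.e
      have m2 := R.five_distinct dg Tc2.a2.symm G1 Tf1.rot.e Tg2.rot.e Tg1.rot'.e
      have hc3 : ty G c = 3 := ty_three zc Tc1.a3 TG.a2 m1.2.2.1
        (by rw [ta3]; decide) zf
      have hf3 : ty G f = 3 := ty_three zf Tf1.a3 TG.a2.symm m2.2.1
        (by rw [ta5]; decide) zc
      refine ⟨ta3, ta5, fun h => zc h.2, fun h => zf h.2, ?_, ?_⟩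
      · have hB := (R.B_sum ta3 k3 Tc2.a zc hc' A3a A3b A3c A3d A3e).1
        have hs3 := R.shr_ge Tc2.rot'.e G1 Tf1.rot.e Tg2.rot.e zg
        rw [ta3, hc3, hf3, ta5, t4] at hs3
        have : sh 2 3 3 2 0 = 3 := by decide
        omega
      · have hB := (R.B_sum ta5 k5 Tf2.a zf hf' A5a A5b A5c A5d A5e).1
        have hs3 := R.shr_ge Tg2.rot.e Tg1.rot'.e Tc2.rot'.e G1 zg
        rw [ta3, hc3, hf3, ta5, t4] at hs3
        have : sh 2 0 2 3 3 = 3 := by decide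
        omega
    · have ta3 : ty G a3 = 2 := by
        rcases isT_iff.1 t3 with h | h
        · exact absurd ((ty_one h).2 g Tg1.rot.a) zg
        · exact h
      have ta5 : ty G a5 = 2 := by
        rcases isT_iff.1 t5 with h | h
        · exact absurd ((ty_one h).2 g Tf1.a) zg
        · exact h
      refine ⟨ta3, ta5, fun h => zg h.1, fun h => zg h.1, ?_, ?_⟩
      · have hB := (R.B_sum ta3 k3 Tg1.rot.a zg A3a A3b A3c A3d A3e hc).1
        have hs3 := R.shr_ge hg hg' C.c4.rot.e C.b4.rot'.e t4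
        rw [ta3, ta5, zu5, zu4] at hs3
        have := (sh_g _ zg).1
        omega
      · have hB := (R.B_sum ta5 k5 Tf1.a zg hf hf' A5a A5b A5c A5d).1
        have hs3 := R.shr_ge C.c4.rot.e C.b4.rot'.e C.c3.rot'.e hg t4
        rw [ta3, ta5, zu5, zu4] at hs3
        have := (sh_g _ zg).2
        omega
  obtain ⟨ta3, ta5, hgc, hgf, S3, S5⟩ := main
  have U3 : ∀ w', ty G w' = 1 → R.QQ a3 w' → w' = w := by
    rintro w' hw' ⟨x, hx, hx0, _, hx1, _, hxe⟩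
    rcases R.mem_seven d3 Tg1.rot.a A3a A3b A3c A3d A3e hc hx with
      rfl | rfl | rfl | rfl | rfl | rfl | rfl
    · rw [A3a, hg'] at hxe; rw [← hxe, ta5] at hw'; exact absurd hw' (by decide)
    · rw [A3b, C.d3.e] at hxe; rw [← hxe, zu5] at hw'; exact absurd hw' (by decide)
    · rw [A3c, C.w3.rot.e] at hxe; exact hxe.symm
    · rw [A3d, C.b2.rot'.e] at hxe; rw [← hxe, zu2] at hw'; exact absurd hw' (by decide)
    · rw [A3e, Tp1.rot'.e] at hxe; rw [← hxe, t1] at hw'; exact absurd hw' (by decide)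
    · rw [hc, TP.rot'.e] at hxe; rw [← hxe, zs] at hw'; exact absurd hw' (by decide)
    · rw [hc'] at hx1; exact absurd ⟨hx1, hx0⟩ hgc
  have U5 : ∀ w', ty G w' = 1 → R.QQ a5 w' → w' = w := by
    rintro w' hw' ⟨x, hx, hx0, _, hx1, _, hxe⟩
    rcases R.mem_seven d5 Tq1.rot.a A5a A5b A5c A5d A5e hf hx with
      rfl | rfl | rfl | rfl | rfl | rfl | rfl
    · rw [A5a, hq'] at hxe; rw [← hxe, t0] at hw'; exact absurd hw' (by decide)
    · rw [A5b, C.d5.e] at hxe; rw [← hxe, zu0] at hw'; exact absurd hw' (by decide)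
    · rw [A5c, C.w5.rot.e] at hxe; exact hxe.symm
    · rw [A5d, C.b4.rot'.e] at hxe; rw [← hxe, zu4] at hw'; exact absurd hw' (by decide)
    · rw [A5e, Tg1.rot'.e] at hxe; rw [← hxe, ta3] at hw'; exact absurd hw' (by decide)
    · rw [hf] at hx1; exact absurd ⟨hx0, hx1⟩ hgf
    · rw [hf', Q1] at hxe; rw [← hxe, zz] at hw'; exact absurd hw' (by decide)
  refine ⟨h35, ⟨ta3, r3, ?_, ?_⟩, ⟨ta5, r5, ?_, ?_⟩⟩
  · rw [R.TT_clean k3]; exact S3
  · intro w1 w2 h1 h2 q1 q2; exact (U3 w1 h1 q1).trans (U3 w2 h2 q2).symm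
  · rw [R.TT_clean k5]; exact S5
  · intro w1 w2 h1 h2 q1 q2; exact (U5 w1 h1 q1).trans (U5 w2 h2 q2).symm

end Rotation

end Pool.Agent.LightEdge
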