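import Pool.Agent.LightEdge.Rot

namespace Pool.Agent.LightEdge

open Finset

set_option linter.unusedSectionVars false

/-- letters: `0` degree five, `1` degree seven with all neighbours of degree five,
`2` degree seven with exactly one neighbour not of degree five, `3` anything else -/
def isT (a : Fin 4) : Bool := a == 1 || a == 2

def nT (a b c d e : Fin 4) : ℕ :=
  (if isT a then 1 else 0) + (if isT b then 1 else 0) + (if isT c then 1 else 0)
    + (if isT d then 1 else 0) + (if isT e then 1 else 0)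

def kF (b c d e : Fin 4) : ℕ :=
  (if b = 0 then 1 else 0) + (if c = 0 then 1 else 0) + (if d = 0 then 1 else 0)
    + (if e = 0 then 1 else 0)

def sh (a b c d e : Fin 4) : ℕ :=
  if isT a then
    (if kF b c d e = 2 then
      (if b = 0 ∧ e = 0 then 12
       else if (b = 0 ∧ d = 0 ∧ isT c) ∨ (c = 0 ∧ e = 0 ∧ isT d) then 0
       else 12 / nT a b c d e)
     else 6 * kF b c d e / nT a b c d e)
  else 0

def ex (a b c d e : Fin 4) : ℕ := if isT a then 90 / nT a b c d e else 0

theorem sh_sum : ∀ a b c d e : Fin 4,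
    sh a b c d e + sh b c d e a + sh c d e a b + sh d e a b c + sh e a b c d
      ≤ 6 * ((if a = 0 then 1 else 0) + (if b = 0 then 1 else 0) + (if c = 0 then 1 else 0)
        + (if d = 0 then 1 else 0) + (if e = 0 then 1 else 0)) := by
  decide +kernel

theorem ex_sum : ∀ a b c d e : Fin 4,
    ex a b c d e + ex b c d e a + ex c d e a b + ex d e a b c + ex e a b c d ≤ 90 := by
  decide +kernel

theorem sh_inner : ∀ a c d : Fin 4, isT a → 9 ≤ sh a 0 c d 0 := by decide +kernel
theorem ex_inner : ∀ a c d : Fin 4, isT a → 30 ≤ ex a 0 c d 0 := by decide +kernel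
theorem ex_left : ∀ a c d e : Fin 4, isT a → 22 ≤ ex a 0 c d e := by decide +kernel
theorem ex_right : ∀ a b c d : Fin 4, isT a → 22 ≤ ex a b c d 0 := by decide +kernel

variable {V : Type} [Fintype V] [DecidableEq V] {G : SimpleGraph V} [DecidableRel G.Adj]

/-- the number of neighbours that are not of degree five -/
def bigs (G : SimpleGraph V) [DecidableRel G.Adj] (v : V) : ℕ :=
  ((G.neighborFinset v).filter (fun x => G.degree x ≠ 5)).card

/-- the letter of a vertex -/
def ty (G : SimpleGraph V) [DecidableRel G.Adj] (v : V) : Fin 4 :=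
  if G.degree v = 5 then 0
  else if G.degree v = 7 ∧ bigs G v = 0 then 1
  else if G.degree v = 7 ∧ bigs G v = 1 then 2 else 3

theorem ty_zero {v : V} : ty G v = 0 ↔ G.degree v = 5 := by
  unfold ty; split_ifs with h1 h2 h3 <;> simp_all

theorem ty_one {v : V} (h : ty G v = 1) :
    G.degree v = 7 ∧ ∀ x, G.Adj v x → ty G x = 0 := by
  unfold ty at h
  split_ifs at h with h1 h2 h3
  · exact absurd h (by decide)
  · refine ⟨h2.1, fun x hx => ?_⟩
    have := h2.2
    unfold bigs at this
    rw [card_eq_zero, filter_eq_empty_iff] at this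
    have h4 := this (x := x) (by simpa using hx)
    rw [ty_zero]; simpa using h4
  · exact absurd h (by decide)
  · exact absurd h (by decide)

theorem ty_two {v : V} (h : ty G v = 2) :
    G.degree v = 7 ∧ ∃ z, G.Adj v z ∧ ty G z ≠ 0 ∧ ∀ x, G.Adj v x → ty G x ≠ 0 → x = z := by
  unfold ty at h
  split_ifs at h with h1 h2 h3
  · exact absurd h (by decide)
  · exact absurd h (by decide)
  · refine ⟨h3.1, ?_⟩
    have := h3.2
    unfold bigs at this
    rw [card_eq_one] at this
    obtain ⟨z, hz⟩ := this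
    have hz1 : z ∈ (G.neighborFinset v).filter (fun x => G.degree x ≠ 5) := by rw [hz]; simp
    rw [mem_filter, SimpleGraph.mem_neighborFinset] at hz1
    refine ⟨z, hz1.1, by rw [Ne, ty_zero]; exact hz1.2, fun x hx hx0 => ?_⟩
    have hx1 : x ∈ (G.neighborFinset v).filter (fun x => G.degree x ≠ 5) := by
      rw [mem_filter, SimpleGraph.mem_neighborFinset]
      exact ⟨hx, by rwa [Ne, ty_zero] at hx0⟩
    rw [hz] at hx1
    simpa using hx1
  · exact absurd h (by decide)

theorem ty_three {v x y : V} (hv : ty G v ≠ 0) (hx : G.Adj v x) (hy : G.Adj v y)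
    (hxy : x ≠ y) (hx0 : ty G x ≠ 0) (hy0 : ty G y ≠ 0) : ty G v = 3 := by
  have h1 : ty G v ≠ 1 := fun h => hx0 ((ty_one h).2 x hx)
  have h2 : ty G v ≠ 2 := fun h => by
    obtain ⟨z, _, _, hz⟩ := (ty_two h).2
    exact hxy ((hz x hx hx0).trans (hz y hy hy0).symm)
  generalize ty G v = t at *
  revert t; decide

theorem isT_iff {v : V} : isT (ty G v) ↔ ty G v = 1 ∨ ty G v = 2 := by
  unfold isT; simp

theorem isT_deg {v : V} (h : isT (ty G v)) : G.degree v = 7 := by
  rcases isT_iff.1 h with h | h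
  · exact (ty_one h).1
  · exact (ty_two h).1

namespace Rotation

open Classical in
/-- what the vertex `u` of degree five gives to its neighbour `w` -/
noncomputable def shr (R : Rotation G) (u w : V) : ℕ :=
  sh (ty G w) (ty G (R.next u w)) (ty G (R.next u (R.next u w)))
      (ty G (R.next u (R.next u (R.next u w)))) (ty G (R.next u (R.next u (R.next u (R.next u w)))))
    + (if R.Clean u then 0 else
      ex (ty G w) (ty G (R.next u w)) (ty G (R.next u (R.next u w)))
      (ty G (R.next u (R.next u (R.next u w))))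
      (ty G (R.next u (R.next u (R.next u (R.next u w))))))

/-- the part of the charge of `w` that comes from `u` -/
noncomputable def FF (R : Rotation G) (w u : V) : ℕ := if ty G u = 0 then R.shr u w else 0

/-- the charge received by `w` -/
noncomputable def SS (R : Rotation G) (w : V) : ℕ := ∑ u ∈ G.neighborFinset w, R.FF w u

theorem sum_five (R : Rotation G) {v x0 x1 x2 x3 x4 : V} (hd : G.degree v = 5)
    (h : G.Adj v x0) (e0 : R.next v x0 = x1) (e1 : R.next v x1 = x2) (e2 : R.next v x2 = x3)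
    (e3 : R.next v x3 = x4) (F : V → ℕ) :
    ∑ y ∈ G.neighborFinset v, F y = F x0 + F x1 + F x2 + F x3 + F x4 := by
  rw [R.sum_nbr h, hd]
  simp [sum_range_succ, e0, e1, e2, e3]

theorem sum_seven (R : Rotation G) {v x0 x1 x2 x3 x4 x5 x6 : V} (hd : G.degree v = 7)
    (h : G.Adj v x0) (e0 : R.next v x0 = x1) (e1 : R.next v x1 = x2) (e2 : R.next v x2 = x3)
    (e3 : R.next v x3 = x4) (e4 : R.next v x4 = x5) (e5 : R.next v x5 = x6) (F : V → ℕ) :
    ∑ y ∈ G.neighborFinset v, F y = F x0 + F x1 + F x2 + F x3 + F x4 + F x5 + F x6 := by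
  rw [R.sum_nbr h, hd]
  simp [sum_range_succ, e0, e1, e2, e3, e4, e5]

open Classical in
theorem shr_total (R : Rotation G) {u : V} (hu : G.degree u = 5) :
    ∑ w ∈ G.neighborFinset u, R.shr u w
      ≤ 6 * (∑ w ∈ G.neighborFinset u, if ty G w = 0 then 1 else 0)
        + (if R.Clean u then 0 else 90) := by
  have hd : 0 < G.degree u := by omega
  obtain ⟨x0, h0⟩ := (G.degree_pos_iff_exists_adj u).1 hd
  obtain ⟨x1, e0⟩ : ∃ y, R.next u x0 = y := ⟨_, rfl⟩
  obtain ⟨x2, e1⟩ : ∃ y, R.next u x1 = y := ⟨_, rfl⟩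
  obtain ⟨x3, e2⟩ : ∃ y, R.next u x2 = y := ⟨_, rfl⟩
  obtain ⟨x4, e3⟩ : ∃ y, R.next u x3 = y := ⟨_, rfl⟩
  have e4 : R.next u x4 = x0 := R.five_close hu h0 e0 e1 e2 e3
  rw [R.sum_five hu h0 e0 e1 e2 e3, R.sum_five hu h0 e0 e1 e2 e3]
  unfold shr
  simp only [e0, e1, e2, e3, e4]
  have h1 := sh_sum (ty G x0) (ty G x1) (ty G x2) (ty G x3) (ty G x4)
  have h2 := ex_sum (ty G x0) (ty G x1) (ty G x2) (ty G x3) (ty G x4)
  by_cases hc : R.Clean u
  · simp only [if_pos hc]; omega
  · simp only [if_neg hc]; omega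

/-- the letters seen from `w` at a vertex `u` of its link -/
theorem shr_link (R : Rotation G) {w p u s : V} (hu : G.degree u = 5) (h1 : R.Tr w p u)
    (h2 : R.Tr w u s) :
    R.next u w = p ∧ R.next u (R.next u (R.next u p)) = s ∧
      R.next u (R.next u (R.next u (R.next u w))) = s := by
  have hw : G.Adj u w := h1.a3
  have e1 : R.next u w = p := h1.e3
  have hper := R.period hw
  rw [hu] at hper
  simp only [Function.iterate_succ_apply, Function.iterate_zero, id] at hper
  have hs : R.next u (R.next u (R.next u (R.next u w))) = s := by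
    refine R.inj ?_ h2.a2 (hper.trans h2.e2.symm)
    exact R.next_adj _ _ (R.next_adj _ _ (R.next_adj _ _ (R.next_adj _ _ hw)))
  refine ⟨e1, ?_, hs⟩
  rw [e1] at hs; exact hs

open Classical in
theorem shr_link_eq (R : Rotation G) {w p u s : V} (hu : G.degree u = 5) (h1 : R.Tr w p u)
    (h2 : R.Tr w u s) :
    R.shr u w = sh (ty G w) (ty G p) (ty G (R.next u p)) (ty G (R.next u (R.next u p))) (ty G s)
      + (if R.Clean u then 0 else
        ex (ty G w) (ty G p) (ty G (R.next u p)) (ty G (R.next u (R.next u p))) (ty G s)) := by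
  obtain ⟨e1, e2, e3⟩ := R.shr_link hu h1 h2
  unfold shr
  rw [e3, e1]

theorem inner_ge (R : Rotation G) {w p u s : V} (hw : isT (ty G w)) (hp : ty G p = 0)
    (hu : ty G u = 0) (hs : ty G s = 0) (h1 : R.Tr w p u) (h2 : R.Tr w u s) :
    9 ≤ R.FF w u ∧ (¬ R.Clean u → 39 ≤ R.FF w u) := by
  have he := R.shr_link_eq (ty_zero.1 hu) h1 h2
  unfold FF
  rw [if_pos hu, he, hp, hs]
  have h3 := sh_inner (ty G w) (ty G (R.next u p)) (ty G (R.next u (R.next u p))) hw
  have h4 := ex_inner (ty G w) (ty G (R.next u p)) (ty G (R.next u (R.next u p))) hw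
  refine ⟨by omega, fun hc => ?_⟩
  rw [if_neg hc]; omega

end Rotation

end Pool.Agent.LightEdge
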