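import Pool.Agent.LightEdge.Local

namespace Pool.Agent.LightEdge

open Finset

set_option linter.unusedSectionVars false

variable {V : Type} [Fintype V] [DecidableEq V] {G : SimpleGraph V} [DecidableRel G.Adj]

namespace Rotation

theorem seven_distinct (R : Rotation G) {v x0 x1 x2 x3 x4 x5 x6 : V} (hd : G.degree v = 7)
    (h : G.Adj v x0) (e0 : R.next v x0 = x1) (e1 : R.next v x1 = x2) (e2 : R.next v x2 = x3)
    (e3 : R.next v x3 = x4) (e4 : R.next v x4 = x5) (e5 : R.next v x5 = x6) :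
    x1 ≠ x0 ∧ x2 ≠ x0 ∧ x3 ≠ x0 ∧ x4 ≠ x0 ∧ x5 ≠ x0 ∧ x6 ≠ x0 := by
  have key : ∀ k, k < 7 → 0 < k → (R.next v)^[k] x0 ≠ x0 := by
    intro k hk hk0 he
    have := R.iter_inj h (i := k) (j := 0) (by omega) (by omega) (by simpa using he)
    omega
  refine ⟨?_, ?_, ?_, ?_, ?_, ?_⟩
  · have := key 1 (by omega) (by omega); simpa [Function.iterate_succ_apply, e0] using this
  · have := key 2 (by omega) (by omega); simpa [Function.iterate_succ_apply, e0, e1] using this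
  · have := key 3 (by omega) (by omega); simpa [Function.iterate_succ_apply, e0, e1, e2] using this
  · have := key 4 (by omega) (by omega)
    simpa [Function.iterate_succ_apply, e0, e1, e2, e3] using this
  · have := key 5 (by omega) (by omega)
    simpa [Function.iterate_succ_apply, e0, e1, e2, e3, e4] using this
  · have := key 6 (by omega) (by omega)
    simpa [Function.iterate_succ_apply, e0, e1, e2, e3, e4, e5] using this

theorem five_distinct (R : Rotation G) {v x0 x1 x2 x3 x4 : V} (hd : G.degree v = 5)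
    (h : G.Adj v x0) (e0 : R.next v x0 = x1) (e1 : R.next v x1 = x2) (e2 : R.next v x2 = x3)
    (e3 : R.next v x3 = x4) :
    x1 ≠ x0 ∧ x2 ≠ x0 ∧ x3 ≠ x0 ∧ x4 ≠ x0 := by
  have key : ∀ k, k < 5 → 0 < k → (R.next v)^[k] x0 ≠ x0 := by
    intro k hk hk0 he
    have := R.iter_inj h (i := k) (j := 0) (by omega) (by omega) (by simpa using he)
    omega
  refine ⟨?_, ?_, ?_, ?_⟩
  · have := key 1 (by omega) (by omega); simpa [Function.iterate_succ_apply, e0] using this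
  · have := key 2 (by omega) (by omega); simpa [Function.iterate_succ_apply, e0, e1] using this
  · have := key 3 (by omega) (by omega); simpa [Function.iterate_succ_apply, e0, e1, e2] using this
  · have := key 4 (by omega) (by omega)
    simpa [Function.iterate_succ_apply, e0, e1, e2, e3] using this

theorem mem_seven (R : Rotation G) {v x0 x1 x2 x3 x4 x5 x6 : V} (hd : G.degree v = 7)
    (h : G.Adj v x0) (e0 : R.next v x0 = x1) (e1 : R.next v x1 = x2) (e2 : R.next v x2 = x3)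
    (e3 : R.next v x3 = x4) (e4 : R.next v x4 = x5) (e5 : R.next v x5 = x6) {x : V}
    (hx : G.Adj v x) :
    x = x0 ∨ x = x1 ∨ x = x2 ∨ x = x3 ∨ x = x4 ∨ x = x5 ∨ x = x6 := by
  have hx' : x ∈ G.neighborFinset v := by simpa using hx
  rw [R.nbr_eq h, hd, mem_image] at hx'
  obtain ⟨i, hi, hix⟩ := hx'
  rw [mem_range] at hi
  subst hix
  interval_cases i <;> simp [Function.iterate_succ_apply, e0, e1, e2, e3, e4, e5]

/-- the neighbours other than the non-five neighbour -/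
theorem two_zero (R : Rotation G) {w x0 x : V} (hw : ty G w = 2) (h : G.Adj w x0)
    (h0 : ty G x0 ≠ 0) (hx : G.Adj w x) (hne : x ≠ x0) : ty G x = 0 := by
  obtain ⟨z, _, _, hz⟩ := (ty_two hw).2
  by_contra hc
  exact hne ((hz x hx hc).trans (hz x0 h h0).symm)

/-- `w` or a degree five neighbour of `w` lies on a face that is not a triangle -/
def Rich (R : Rotation G) (w : V) : Prop :=
  ¬ R.Clean w ∨ ∃ u, G.Adj w u ∧ ty G u = 0 ∧ ¬ R.Clean u

theorem B_sum (R : Rotation G) {w x0 x1 x2 x3 x4 x5 x6 : V} (hw : ty G w = 2)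
    (hc : R.Clean w) (h : G.Adj w x0) (h0 : ty G x0 ≠ 0)
    (e0 : R.next w x0 = x1) (e1 : R.next w x1 = x2) (e2 : R.next w x2 = x3)
    (e3 : R.next w x3 = x4) (e4 : R.next w x4 = x5) (e5 : R.next w x5 = x6) :
    36 + R.FF w x1 + R.FF w x6 ≤ R.SS w ∧
      ((∃ u, G.Adj w u ∧ ty G u = 0 ∧ ¬ R.Clean u) → 58 ≤ R.SS w) := by
  have hd : G.degree w = 7 := (ty_two hw).1
  have hT : isT (ty G w) := by rw [hw]; decide
  obtain ⟨n1, n2, n3, n4, n5, n6⟩ := R.seven_distinct hd h e0 e1 e2 e3 e4 e5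
  have e6 : R.next w x6 = x0 := R.seven_close hd h e0 e1 e2 e3 e4 e5
  have T0 : R.Tr w x0 x1 := hc.tr h e0
  have T1 : R.Tr w x1 x2 := hc.tr T0.a3.symm e1
  have T2 : R.Tr w x2 x3 := hc.tr T1.a3.symm e2
  have T3 : R.Tr w x3 x4 := hc.tr T2.a3.symm e3
  have T4 : R.Tr w x4 x5 := hc.tr T3.a3.symm e4
  have T5 : R.Tr w x5 x6 := hc.tr T4.a3.symm e5
  have T6 : R.Tr w x6 x0 := hc.tr T5.a3.symm e6
  have z1 := R.two_zero hw h h0 T1.a n1
  have z2 := R.two_zero hw h h0 T2.a n2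
  have z3 := R.two_zero hw h h0 T3.a n3
  have z4 := R.two_zero hw h h0 T4.a n4
  have z5 := R.two_zero hw h h0 T5.a n5
  have z6 := R.two_zero hw h h0 T6.a n6
  have i2 := R.inner_ge hT z1 z2 z3 T1 T2
  have i3 := R.inner_ge hT z2 z3 z4 T2 T3
  have i4 := R.inner_ge hT z3 z4 z5 T3 T4
  have i5 := R.inner_ge hT z4 z5 z6 T4 T5
  have hS : R.SS w = _ := R.sum_seven hd h e0 e1 e2 e3 e4 e5 (R.FF w)
  refine ⟨by omega, ?_⟩
  rintro ⟨u, hu, hu0, huc⟩
  have hm := R.mem_seven hd h e0 e1 e2 e3 e4 e5 hu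
  rcases hm with rfl | rfl | rfl | rfl | rfl | rfl | rfl
  · exact absurd hu0 h0
  · have he := R.shr_link_eq (ty_zero.1 z1) T0 T1
    rw [if_neg huc, z2] at he
    have h3 := ex_right (ty G w) (ty G x0) (ty G (R.next u x0)) (ty G (R.next u (R.next u x0))) hT
    have h4 : R.FF w u = R.shr u w := by unfold FF; rw [if_pos z1]
    omega
  · have := i2.2 huc; omega
  · have := i3.2 huc; omega
  · have := i4.2 huc; omega
  · have := i5.2 huc; omega
  · have he := R.shr_link_eq (ty_zero.1 z6) T5 T6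
    rw [if_neg huc, z5] at he
    have h3 := ex_left (ty G w) (ty G (R.next u x5)) (ty G (R.next u (R.next u x5))) (ty G x0) hT
    have h4 : R.FF w u = R.shr u w := by unfold FF; rw [if_pos z6]
    omega

open Classical in
/-- the total charge of `w` -/
noncomputable def TT (R : Rotation G) (w : V) : ℕ := R.SS w + (if R.Clean w then 0 else 90)

theorem TT_clean (R : Rotation G) {w : V} (h : R.Clean w) : R.TT w = R.SS w := by
  unfold TT; rw [if_pos h]; rfl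

theorem TT_dirty (R : Rotation G) {w : V} (h : ¬ R.Clean w) : 90 ≤ R.TT w := by
  unfold TT; rw [if_neg h]; omega

theorem B_ge (R : Rotation G) {w : V} (hw : ty G w = 2) :
    36 ≤ R.TT w ∧ (R.Rich w → 54 ≤ R.TT w) := by
  by_cases hc : R.Clean w
  · obtain ⟨hd, z, hz, hz0, _⟩ := ty_two hw
    have hB := R.B_sum hw hc hz hz0 rfl rfl rfl rfl rfl rfl
    rw [R.TT_clean hc]
    refine ⟨by omega, ?_⟩
    rintro (h | h)
    · exact absurd hc h
    · have := hB.2 h; omega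
  · have := R.TT_dirty hc
    exact ⟨by omega, fun _ => by omega⟩

theorem A_rich (R : Rotation G) {w : V} (hw : ty G w = 1) (hr : R.Rich w) : 90 ≤ R.TT w := by
  by_cases hc : R.Clean w
  · rcases hr with h | ⟨x0, h, h0, huc⟩
    · exact absurd hc h
    rw [R.TT_clean hc]
    obtain ⟨hd, hall⟩ := ty_one hw
    have hT : isT (ty G w) := by rw [hw]; decide
    obtain ⟨x1, e0⟩ : ∃ y, R.next w x0 = y := ⟨_, rfl⟩
    obtain ⟨x2, e1⟩ : ∃ y, R.next w x1 = y := ⟨_, rfl⟩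
    obtain ⟨x3, e2⟩ : ∃ y, R.next w x2 = y := ⟨_, rfl⟩
    obtain ⟨x4, e3⟩ : ∃ y, R.next w x3 = y := ⟨_, rfl⟩
    obtain ⟨x5, e4⟩ : ∃ y, R.next w x4 = y := ⟨_, rfl⟩
    obtain ⟨x6, e5⟩ : ∃ y, R.next w x5 = y := ⟨_, rfl⟩
    have e6 : R.next w x6 = x0 := R.seven_close hd h e0 e1 e2 e3 e4 e5
    have T0 : R.Tr w x0 x1 := hc.tr h e0
    have T1 : R.Tr w x1 x2 := hc.tr T0.a3.symm e1
    have T2 : R.Tr w x2 x3 := hc.tr T1.a3.symm e2
    have T3 : R.Tr w x3 x4 := hc.tr T2.a3.symm e3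
    have T4 : R.Tr w x4 x5 := hc.tr T3.a3.symm e4
    have T5 : R.Tr w x5 x6 := hc.tr T4.a3.symm e5
    have T6 : R.Tr w x6 x0 := hc.tr T5.a3.symm e6
    have z1 := hall _ T1.a
    have z2 := hall _ T2.a
    have z3 := hall _ T3.a
    have z4 := hall _ T4.a
    have z5 := hall _ T5.a
    have z6 := hall _ T6.a
    have i0 := (R.inner_ge hT z6 h0 z1 T6 T0).2 huc
    have i1 := (R.inner_ge hT h0 z1 z2 T0 T1).1
    have i2 := (R.inner_ge hT z1 z2 z3 T1 T2).1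
    have i3 := (R.inner_ge hT z2 z3 z4 T2 T3).1
    have i4 := (R.inner_ge hT z3 z4 z5 T3 T4).1
    have i5 := (R.inner_ge hT z4 z5 z6 T4 T5).1
    have i6 := (R.inner_ge hT z5 z6 h0 T5 T6).1
    have hS : R.SS w = _ := R.sum_seven hd h e0 e1 e2 e3 e4 e5 (R.FF w)
    omega
  · exact R.TT_dirty hc

/-- the second neighbourhood of a vertex of degree seven with clean link -/
structure Cfg (R : Rotation G) (w u0 u1 u2 u3 u4 u5 u6 a0 a1 a2 a3 a4 a5 a6 : V) : Prop where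
  w0 : R.Tr w u0 u1
  w1 : R.Tr w u1 u2
  w2 : R.Tr w u2 u3
  w3 : R.Tr w u3 u4
  w4 : R.Tr w u4 u5
  w5 : R.Tr w u5 u6
  w6 : R.Tr w u6 u0
  b0 : R.Tr u1 u0 a0
  b1 : R.Tr u2 u1 a1
  b2 : R.Tr u3 u2 a2
  b3 : R.Tr u4 u3 a3
  b4 : R.Tr u5 u4 a4
  b5 : R.Tr u6 u5 a5
  b6 : R.Tr u0 u6 a6
  c0 : R.Tr u1 a0 a1
  c1 : R.Tr u2 a1 a2
  c2 : R.Tr u3 a2 a3
  c3 : R.Tr u4 a3 a4
  c4 : R.Tr u5 a4 a5
  c5 : R.Tr u6 a5 a6
  c6 : R.Tr u0 a6 a0
  d0 : R.Tr u1 a1 u2
  d1 : R.Tr u2 a2 u3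
  d2 : R.Tr u3 a3 u4
  d3 : R.Tr u4 a4 u5
  d4 : R.Tr u5 a5 u6
  d5 : R.Tr u6 a6 u0
  d6 : R.Tr u0 a0 u1

theorem Cfg.rot {R : Rotation G} {w u0 u1 u2 u3 u4 u5 u6 a0 a1 a2 a3 a4 a5 a6 : V}
    (h : R.Cfg w u0 u1 u2 u3 u4 u5 u6 a0 a1 a2 a3 a4 a5 a6) :
    R.Cfg w u1 u2 u3 u4 u5 u6 u0 a1 a2 a3 a4 a5 a6 a0 :=
  ⟨h.w1, h.w2, h.w3, h.w4, h.w5, h.w6, h.w0, h.b1, h.b2, h.b3, h.b4, h.b5, h.b6, h.b0,
    h.c1, h.c2, h.c3, h.c4, h.c5, h.c6, h.c0, h.d1, h.d2, h.d3, h.d4, h.d5, h.d6, h.d0⟩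

theorem apex_step (R : Rotation G) {w p u s : V} (hu : G.degree u = 5) (hc : R.Clean u)
    (h1 : R.Tr w p u) (h2 : R.Tr w u s) :
    R.Tr u p (R.next u p) ∧ R.Tr u (R.next u p) (R.next s u) ∧ R.Tr u (R.next s u) s ∧
      R.next u (R.next u p) = R.next s u := by
  obtain ⟨e1, e2, e3⟩ := R.shr_link hu h1 h2
  have T1 : R.Tr u p (R.next u p) := hc p h1.a2.symm
  have T2 := hc (R.next u p) T1.a3.symm
  have T3 : R.Tr u (R.next u (R.next u p)) s := hc.tr T2.a3.symm e2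
  have e4 : R.next s u = R.next u (R.next u p) := T3.e3
  rw [← e4] at T2 T3
  exact ⟨T1, T2, T3, e4.symm⟩

theorem FF_inner (R : Rotation G) {w p u s : V} (hp : ty G p = 0)
    (hu : ty G u = 0) (hs : ty G s = 0) (hc : R.Clean u) (h1 : R.Tr w p u) (h2 : R.Tr w u s) :
    R.FF w u = sh (ty G w) 0 (ty G (R.next u p)) (ty G (R.next s u)) 0 := by
  have he := R.shr_link_eq (ty_zero.1 hu) h1 h2
  have h4 := (R.apex_step (ty_zero.1 hu) hc h1 h2).2.2.2
  unfold FF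
  rw [if_pos hu, he, hp, hs, if_pos hc, h4]
  rfl

end Rotation

end Pool.Agent.LightEdge
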