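import Pool.Agent.LightEdge.Defs

namespace Pool.Agent.LightEdge

open Finset

set_option linter.unusedSectionVars false

variable {V : Type} [Fintype V] [DecidableEq V] {G : SimpleGraph V} [DecidableRel G.Adj]

namespace Rotation

theorem iter_adj (R : Rotation G) {v x : V} (h : G.Adj v x) (k : ℕ) :
    G.Adj v ((R.next v)^[k] x) := by
  induction k with
  | zero => simpa using h
  | succ k ih => rw [Function.iterate_succ_apply']; exact R.next_adj _ _ ih

theorem period_aux (R : Rotation G) {v x : V} (h : G.Adj v x) :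
    G.neighborFinset v = (range (Function.minimalPeriod (R.next v) x)).image
      (fun i => (R.next v)^[i] x) ∧ Function.minimalPeriod (R.next v) x = G.degree v := by
  obtain ⟨k, hk⟩ := R.cyclic v _ _ (R.next_adj v x h) h
  have hper : x ∈ Function.periodicPts (R.next v) := by
    refine ⟨k + 1, Nat.succ_pos _, ?_⟩
    show (R.next v)^[k + 1] x = x
    rw [Function.iterate_succ_apply]; exact hk
  have hp : 0 < Function.minimalPeriod (R.next v) x := Function.minimalPeriod_pos_of_mem_periodicPts hper
  have him : G.neighborFinset v = (range (Function.minimalPeriod (R.next v) x)).image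
      (fun i => (R.next v)^[i] x) := by
    ext y
    simp only [SimpleGraph.mem_neighborFinset, mem_image, mem_range]
    constructor
    · intro hy
      obtain ⟨m, hm⟩ := R.cyclic v _ _ h hy
      refine ⟨m % Function.minimalPeriod (R.next v) x, Nat.mod_lt _ hp, ?_⟩
      rw [Function.iterate_mod_minimalPeriod_eq]; exact hm
    · rintro ⟨i, _, rfl⟩
      exact R.iter_adj h i
  refine ⟨him, ?_⟩
  have hc := congrArg Finset.card him
  rw [card_image_of_injOn, card_range] at hc
  · rw [← hc]; rfl
  · intro i hi j hj hij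
    simp only [coe_range, Set.mem_Iio] at hi hj
    exact Function.iterate_injOn_Iio_minimalPeriod hi hj hij

theorem period (R : Rotation G) {v x : V} (h : G.Adj v x) :
    (R.next v)^[G.degree v] x = x := by
  rw [← (R.period_aux h).2]; exact Function.iterate_minimalPeriod

theorem nbr_eq (R : Rotation G) {v x : V} (h : G.Adj v x) :
    G.neighborFinset v = (range (G.degree v)).image (fun i => (R.next v)^[i] x) := by
  conv_rhs => rw [← (R.period_aux h).2]
  exact (R.period_aux h).1

theorem iter_inj (R : Rotation G) {v x : V} (h : G.Adj v x) {i j : ℕ}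
    (hi : i < G.degree v) (hj : j < G.degree v)
    (hij : (R.next v)^[i] x = (R.next v)^[j] x) : i = j := by
  rw [← (R.period_aux h).2] at hi hj
  exact Function.iterate_injOn_Iio_minimalPeriod hi hj hij

theorem sum_nbr (R : Rotation G) {v x : V} (h : G.Adj v x) (F : V → ℕ) :
    ∑ y ∈ G.neighborFinset v, F y = ∑ i ∈ range (G.degree v), F ((R.next v)^[i] x) := by
  rw [R.nbr_eq h, sum_image]
  intro i hi j hj hij
  exact R.iter_inj h (by simpa using hi) (by simpa using hj) hij

/-- every neighbour has a predecessor -/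
theorem exists_pred (R : Rotation G) {v x : V} (h : G.Adj v x) :
    ∃ y, G.Adj v y ∧ R.next v y = x := by
  have hd : 0 < G.degree v := (G.degree_pos_iff_exists_adj v).2 ⟨x, h⟩
  refine ⟨(R.next v)^[G.degree v - 1] x, R.iter_adj h _, ?_⟩
  rw [← Function.iterate_succ_apply' (R.next v)]
  rw [Nat.succ_eq_add_one, Nat.sub_add_cancel hd]
  exact R.period h

theorem inj (R : Rotation G) {v a b : V} (ha : G.Adj v a) (hb : G.Adj v b)
    (hab : R.next v a = R.next v b) : a = b := by
  obtain ⟨k, hk⟩ := R.cyclic v _ _ ha hb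
  have hd : 0 < G.degree v := (G.degree_pos_iff_exists_adj v).2 ⟨a, ha⟩
  have h1 : (R.next v)^[k % G.degree v] a = b := by
    rw [← hk, ← (R.period_aux ha).2, Function.iterate_mod_minimalPeriod_eq]
  have h2 : (R.next v)^[G.degree v - 1] (R.next v a) = a := by
    rw [← Function.iterate_succ_apply, Nat.succ_eq_add_one, Nat.sub_add_cancel hd]
    exact R.period ha
  have h3 : (R.next v)^[G.degree v - 1] (R.next v b) = b := by
    rw [← Function.iterate_succ_apply, Nat.succ_eq_add_one, Nat.sub_add_cancel hd]
    exact R.period hb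
  rw [← h2, ← h3, hab]

/-- The oriented triangle `x y z` is a face. -/
def Tr (R : Rotation G) (x y z : V) : Prop :=
  G.Adj x y ∧ G.Adj y z ∧ G.Adj z x ∧ R.next x y = z ∧ R.next y z = x ∧ R.next z x = y

variable {R : Rotation G} {x y z : V}

theorem Tr.rot (h : R.Tr x y z) : R.Tr y z x :=
  ⟨h.2.1, h.2.2.1, h.1, h.2.2.2.2.1, h.2.2.2.2.2, h.2.2.2.1⟩

theorem Tr.rot' (h : R.Tr x y z) : R.Tr z x y := h.rot.rot

theorem Tr.e (h : R.Tr x y z) : R.next x y = z := h.2.2.2.1
theorem Tr.e2 (h : R.Tr x y z) : R.next y z = x := h.2.2.2.2.1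
theorem Tr.e3 (h : R.Tr x y z) : R.next z x = y := h.2.2.2.2.2
theorem Tr.a (h : R.Tr x y z) : G.Adj x y := h.1
theorem Tr.a2 (h : R.Tr x y z) : G.Adj y z := h.2.1
theorem Tr.a3 (h : R.Tr x y z) : G.Adj z x := h.2.2.1

/-- All faces at `v` are triangles. -/
def Clean (R : Rotation G) (v : V) : Prop := ∀ x, G.Adj v x → R.Tr v x (R.next v x)

theorem Clean.tr {v : V} (h : R.Clean v) (hx : G.Adj v x) (e : R.next v x = y) : R.Tr v x y := by
  rw [← e]; exact h x hx

/-- the face of which `x` is the second vertex -/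
theorem Clean.tr2 {v : V} (h : R.Clean x) (hx : G.Adj v x) : R.Tr v x (R.next v x) := by
  obtain ⟨t, ht, he⟩ := R.exists_pred (v := x) hx.symm
  have h1 : R.Tr x t v := h.tr ht he
  have h2 : R.next v x = t := h1.e3
  rw [h2]; exact h1.rot'

/-- the face of which `y = next v x` is the third vertex -/
theorem Clean.tr3 {v : V} (h : R.Clean y) (hx : G.Adj v x) (e : R.next v x = y) : R.Tr v x y := by
  have hy : G.Adj y v := by rw [← e]; exact (R.next_adj v x hx).symm
  have h1 : R.Tr y v (R.next y v) := h v hy
  have h2 : R.next v (R.next y v) = y := h1.e2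
  have h3 : R.next y v = x := R.inj h1.a2 hx (h2.trans e.symm)
  rw [h3] at h1
  exact h1.rot

theorem five_close (R : Rotation G) {v x1 x2 x3 x4 x5 : V} (hd : G.degree v = 5)
    (h : G.Adj v x1) (e1 : R.next v x1 = x2) (e2 : R.next v x2 = x3) (e3 : R.next v x3 = x4)
    (e4 : R.next v x4 = x5) : R.next v x5 = x1 := by
  have := R.period h
  rw [hd] at this
  simpa [Function.iterate_succ_apply, e1, e2, e3, e4] using this

theorem seven_close (R : Rotation G) {v x1 x2 x3 x4 x5 x6 x7 : V} (hd : G.degree v = 7)
    (h : G.Adj v x1) (e1 : R.next v x1 = x2) (e2 : R.next v x2 = x3) (e3 : R.next v x3 = x4)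
    (e4 : R.next v x4 = x5) (e5 : R.next v x5 = x6) (e6 : R.next v x6 = x7) :
    R.next v x7 = x1 := by
  have := R.period h
  rw [hd] at this
  simpa [Function.iterate_succ_apply, e1, e2, e3, e4, e5, e6] using this

end Rotation

end Pool.Agent.LightEdge
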