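import Pool.Agent.LightEdge.Local2

namespace Pool.Agent.LightEdge

open Finset

set_option linter.unusedSectionVars false
set_option maxRecDepth 100000

/-- the exceptional word -/
def DW (a b c d e f g : Fin 4) : Bool :=
  a == 2 && b == 2 && c == 0 && isT d && e == 0 && isT f && g == 0

/-- two letters that may be adjacent -/
def okP (a b : Fin 4) : Bool := !(a == 1 && b != 0) && !(b == 1 && a != 0)

/-- checks one word -/
def wordOK (a b c d e f g : Fin 4) : Bool :=
  !(okP a b && okP b c && okP c d && okP d e && okP e f && okP f g && okP g a) ||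
    (Nat.ble 72 (sh 1 0 a b 0 + sh 1 0 b c 0 + sh 1 0 c d 0 + sh 1 0 d e 0 + sh 1 0 e f 0
      + sh 1 0 f g 0 + sh 1 0 g a 0) ||
    (Nat.ble 66 (sh 1 0 a b 0 + sh 1 0 b c 0 + sh 1 0 c d 0 + sh 1 0 d e 0 + sh 1 0 e f 0
      + sh 1 0 f g 0 + sh 1 0 g a 0) &&
      (DW a b c d e f g || DW b c d e f g a || DW c d e f g a b || DW d e f g a b c ||
        DW e f g a b c d || DW f g a b c d e || DW g a b c d e f)))

theorem word_check : ∀ a b c d e f g : Fin 4, wordOK a b c d e f g = true := by
  decide +kernel

end Pool.Agent.LightEdge
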